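import Mathlib
import Pool.Agent.Shared.CountingLLL

/-!
Combinatorial lemmas for the DOM-boundedness of graphs without an induced double star.
-/

set_option autoImplicit false
set_option linter.unusedSectionVars false

namespace Pool.Agent.Lib.MP_1aa2a2_co

open Finset

variable {V : Type*} [Fintype V] [DecidableEq V] (G : SimpleGraph V) [DecidableRel G.Adj]

/-- No two vertices of `I` are adjacent. -/
def Indep (I : Finset V) : Prop := ∀ x ∈ I, ∀ y ∈ I, ¬ G.Adj x y

/-- There is no induced double star with `k` leaves at each centre. -/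
def NoDS (k : ℕ) : Prop :=
  ∀ (u v : V) (I J : Finset V), G.Adj u v → I.card = k → J.card = k → Indep G I → Indep G J →
    (∀ x ∈ I, G.Adj u x ∧ ¬ G.Adj v x ∧ x ≠ v) → (∀ y ∈ J, G.Adj v y ∧ ¬ G.Adj u y ∧ y ≠ u) →
    (∀ x ∈ I, ∀ y ∈ J, ¬ G.Adj x y) → False

/-- Closed neighbourhood. -/
def cN (u : V) : Finset V := insert u (G.neighborFinset u)

/-- The elements of `Z` of degree at most `D`. -/
def low (D : ℕ) (Z : Finset V) : Finset V := Z.filter fun z => G.degree z ≤ D

variable {G}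

theorem mem_cN {u z : V} : z ∈ cN G u ↔ z = u ∨ G.Adj u z := by
  simp [cN]

theorem card_cN (u : V) : (cN G u).card = G.degree u + 1 := by
  rw [cN, Finset.card_insert_of_notMem (by simp), SimpleGraph.card_neighborFinset_eq_degree]

theorem mem_low {D : ℕ} {Z : Finset V} {z : V} : z ∈ low G D Z ↔ z ∈ Z ∧ G.degree z ≤ D := by
  simp [low]

/-- Greedy choice of an independent set among vertices of small degree. -/
theorem exists_indep (D : ℕ) : ∀ (k : ℕ) (Z : Finset V), (∀ z ∈ Z, G.degree z ≤ D) →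
    k * (D + 1) ≤ Z.card → ∃ I ⊆ Z, I.card = k ∧ Indep G I := by
  intro k
  induction k with
  | zero =>
    intro Z _ _
    exact ⟨∅, Finset.empty_subset _, rfl, fun x hx => absurd hx (Finset.notMem_empty x)⟩
  | succ k ih =>
    intro Z hZ hcard
    obtain ⟨z, hz⟩ : Z.Nonempty := Finset.card_pos.1 (by nlinarith)
    have h1 : k * (D + 1) ≤ (Z \ cN G z).card := by
      have h2 := Finset.le_card_sdiff (cN G z) Z
      have h3 := card_cN (G := G) z
      have h4 := hZ z hz
      have h5 : (k + 1) * (D + 1) = k * (D + 1) + (D + 1) := by ring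
      omega
    obtain ⟨I, hIZ, hIc, hI⟩ := ih (Z \ cN G z) (fun w hw => hZ w (Finset.mem_sdiff.1 hw).1) h1
    have hzI : z ∉ I := fun h => (Finset.mem_sdiff.1 (hIZ h)).2 (mem_cN.2 (Or.inl rfl))
    have hadj : ∀ w ∈ I, ¬ G.Adj z w := fun w hw h =>
      (Finset.mem_sdiff.1 (hIZ hw)).2 (mem_cN.2 (Or.inr h))
    refine ⟨insert z I, Finset.insert_subset hz (hIZ.trans Finset.sdiff_subset), ?_, ?_⟩
    · rw [Finset.card_insert_of_notMem hzI, hIc]
    · intro x hx y hy
      rcases Finset.mem_insert.1 hx with rfl | hx' <;>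
        rcases Finset.mem_insert.1 hy with rfl | hy'
      · exact G.irrefl
      · exact hadj y hy'
      · exact fun h => hadj x hx' h.symm
      · exact hI x hx' y hy'

theorem not_both_aux {k : ℕ} (hG : NoDS G k) {u v : V} (huv : G.Adj u v) {D D' : ℕ}
    (hD : D ≤ D') (h1 : 2 * k * (D + 1) ≤ (low G D (G.neighborFinset u \ cN G v)).card)
    (h2 : 2 * k * (D' + 1) ≤ (low G D' (G.neighborFinset v \ cN G u)).card) : False := by
  obtain ⟨I, hIZ, hIc, hI⟩ := exists_indep (G := G) D k (low G D (G.neighborFinset u \ cN G v))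
    (fun z hz => (mem_low.1 hz).2) (by nlinarith)
  have h3 : (I.biUnion (cN G)).card ≤ k * (D' + 1) := by
    calc (I.biUnion (cN G)).card ≤ ∑ x ∈ I, (cN G x).card := Finset.card_biUnion_le
      _ ≤ ∑ _x ∈ I, (D' + 1) := by
        apply Finset.sum_le_sum
        intro x hx
        rw [card_cN]
        have := (mem_low.1 (hIZ hx)).2
        omega
      _ = k * (D' + 1) := by rw [Finset.sum_const, hIc, smul_eq_mul]
  obtain ⟨J, hJZ, hJc, hJ⟩ := exists_indep (G := G) D' k
    (low G D' (G.neighborFinset v \ cN G u) \ I.biUnion (cN G))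
    (fun z hz => (mem_low.1 (Finset.mem_sdiff.1 hz).1).2) (by
      have h4 := Finset.le_card_sdiff (I.biUnion (cN G)) (low G D' (G.neighborFinset v \ cN G u))
      have h5 : 2 * k * (D' + 1) = k * (D' + 1) + k * (D' + 1) := by ring
      omega)
  refine hG u v I J huv hIc hJc hI hJ ?_ ?_ ?_
  · intro x hx
    have h := Finset.mem_sdiff.1 (mem_low.1 (hIZ hx)).1
    rw [SimpleGraph.mem_neighborFinset, mem_cN] at h
    exact ⟨h.1, fun h' => h.2 (Or.inr h'), fun h' => h.2 (Or.inl h')⟩
  · intro y hy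
    have h := Finset.mem_sdiff.1 (mem_low.1 (Finset.mem_sdiff.1 (hJZ hy)).1).1
    rw [SimpleGraph.mem_neighborFinset, mem_cN] at h
    exact ⟨h.1, fun h' => h.2 (Or.inr h'), fun h' => h.2 (Or.inl h')⟩
  · intro x hx y hy hxy
    exact (Finset.mem_sdiff.1 (hJZ hy)).2
      (Finset.mem_biUnion.2 ⟨x, hx, mem_cN.2 (Or.inr hxy)⟩)

/-- `Z` has at most `K (D + 1)` elements of degree at most `D`, for each `D`. -/
def Sparse (G : SimpleGraph V) [DecidableRel G.Adj] (K : ℕ) (Z : Finset V) : Prop :=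
  ∀ D, (low G D Z).card ≤ K * (D + 1)

/-- The neighbourhoods of two adjacent vertices are nearly nested. -/
theorem nested {k : ℕ} (hG : NoDS G k) {u v : V} (huv : G.Adj u v) :
    (∀ D, (low G D (G.neighborFinset u \ cN G v)).card < 2 * k * (D + 1)) ∨
    (∀ D, (low G D (G.neighborFinset v \ cN G u)).card < 2 * k * (D + 1)) := by
  by_contra h
  push Not at h
  obtain ⟨⟨D, h1⟩, ⟨D', h2⟩⟩ := h
  rcases le_total D D' with hD | hD
  · exact not_both_aux hG huv hD h1 h2
  · exact not_both_aux hG huv.symm hD h2 h1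

/-- The weight of a set of vertices. -/
noncomputable def wt (G : SimpleGraph V) [DecidableRel G.Adj] (ρ : ℝ) (Z : Finset V) : ℝ :=
  ∑ z ∈ Z, ρ ^ G.degree z

theorem wt_mono {ρ : ℝ} (hρ : 0 ≤ ρ) {Y Z : Finset V} (h : Y ⊆ Z) : wt G ρ Y ≤ wt G ρ Z :=
  Finset.sum_le_sum_of_subset_of_nonneg h fun _ _ _ => pow_nonneg hρ _

theorem wt_nonneg {ρ : ℝ} (hρ : 0 ≤ ρ) (Z : Finset V) : 0 ≤ wt G ρ Z :=
  Finset.sum_nonneg fun _ _ => pow_nonneg hρ _

theorem wt_union_le {ρ : ℝ} (hρ : 0 ≤ ρ) (Y Z : Finset V) :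
    wt G ρ (Y ∪ Z) ≤ wt G ρ Y + wt G ρ Z := by
  have h := Finset.sum_union_inter (s₁ := Y) (s₂ := Z) (f := fun z => ρ ^ G.degree z)
  have h2 := wt_nonneg (G := G) hρ (Y ∩ Z)
  unfold wt at *
  linarith

theorem wt_biUnion_le {ι : Type*} [DecidableEq ι] {ρ : ℝ} (hρ : 0 ≤ ρ) (s : Finset ι)
    (Z : ι → Finset V) (M : ℝ) (h : ∀ i ∈ s, wt G ρ (Z i) ≤ M) :
    wt G ρ (s.biUnion Z) ≤ s.card * M := by
  induction s using Finset.induction_on with
  | empty => simp [wt]
  | insert a s ha ih =>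
    rw [Finset.biUnion_insert, Finset.card_insert_of_notMem ha]
    have h1 := wt_union_le (G := G) hρ (Z a) (s.biUnion Z)
    have h2 := ih fun i hi => h i (Finset.mem_insert_of_mem hi)
    have h3 := h a (Finset.mem_insert_self a s)
    push_cast
    linarith

/-- The tails of `∑ (D + 1) ρ ^ D` beyond `d` are at most `η`. -/
def Tail (ρ η : ℝ) (d : ℕ) : Prop :=
  ∀ T : Finset ℕ, (∀ D ∈ T, d ≤ D) → ∑ D ∈ T, ((D : ℝ) + 1) * ρ ^ D ≤ η

theorem exists_tail {ρ η : ℝ} (h0 : 0 ≤ ρ) (h1 : ρ < 1) (hη : 0 < η) :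
    ∃ d₀, ∀ d, d₀ ≤ d → Tail ρ η d := by
  have hn : ‖ρ‖ < 1 := by rw [Real.norm_eq_abs, abs_of_nonneg h0]; exact h1
  have hs1 := summable_pow_mul_geometric_of_norm_lt_one 1 hn
  have hs0 := summable_geometric_of_lt_one h0 h1
  have hs : Summable fun D : ℕ => ((D : ℝ) + 1) * ρ ^ D := by
    refine (hs1.add hs0).congr fun D => ?_
    ring
  obtain ⟨s, hs'⟩ := summable_iff_vanishing_norm.1 hs η hη
  refine ⟨s.sup id + 1, fun d hd T hT => ?_⟩
  have hdisj : Disjoint T s := by
    rw [Finset.disjoint_left]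
    intro D hD hDs
    have h2 : D ≤ s.sup id := Finset.le_sup (f := id) hDs
    have := hT D hD
    omega
  exact (le_abs_self _).trans (le_of_lt (by simpa [Real.norm_eq_abs] using hs' T hdisj))

theorem Tail.single {ρ η : ℝ} {d : ℕ} (h : Tail ρ η d) {D : ℕ} (hD : d ≤ D) :
    ((D : ℝ) + 1) * ρ ^ D ≤ η := by
  simpa using h {D} (by simpa using hD)

theorem wt_le_of_sparse {ρ η : ℝ} {d K : ℕ} (hρ : 0 ≤ ρ) (hT : Tail ρ η d)
    (hd : ∀ v, d ≤ G.degree v) {Z : Finset V} (hZ : Sparse G K Z) : wt G ρ Z ≤ K * η := by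
  unfold wt
  rw [← Finset.sum_fiberwise_of_maps_to (s := Z) (t := Z.image fun z => G.degree z)
    (g := fun z => G.degree z) (fun z hz => Finset.mem_image_of_mem _ hz)]
  calc ∑ D ∈ Z.image (fun z => G.degree z), ∑ z ∈ Z with G.degree z = D, ρ ^ G.degree z
      ≤ ∑ D ∈ Z.image (fun z => G.degree z), (K : ℝ) * (((D : ℝ) + 1) * ρ ^ D) := by
        apply Finset.sum_le_sum
        intro D _
        rw [Finset.sum_congr rfl (g := fun _ => ρ ^ D)
          (fun z hz => by rw [(Finset.mem_filter.1 hz).2]), Finset.sum_const, nsmul_eq_mul,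
          ← mul_assoc]
        apply mul_le_mul_of_nonneg_right _ (pow_nonneg hρ _)
        have h1 : (Z.filter fun z => G.degree z = D).card ≤ (low G D Z).card := by
          apply Finset.card_le_card
          intro z hz
          rw [Finset.mem_filter] at hz
          exact mem_low.2 ⟨hz.1, hz.2.le⟩
        exact_mod_cast h1.trans (hZ D)
    _ = K * ∑ D ∈ Z.image (fun z => G.degree z), (((D : ℝ) + 1) * ρ ^ D) := by
        rw [Finset.mul_sum]
    _ ≤ K * η := by
        apply mul_le_mul_of_nonneg_left _ (Nat.cast_nonneg _)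
        apply hT
        intro D hD
        obtain ⟨z, _, rfl⟩ := Finset.mem_image.1 hD
        exact hd z

theorem wt_singleton_le {ρ η : ℝ} {d : ℕ} (hρ : 0 ≤ ρ) (hT : Tail ρ η d)
    (hd : ∀ v, d ≤ G.degree v) (v : V) : wt G ρ {v} ≤ η := by
  have h := hT.single (hd v)
  have h2 : (0 : ℝ) ≤ (G.degree v : ℝ) * ρ ^ G.degree v :=
    mul_nonneg (Nat.cast_nonneg _) (pow_nonneg hρ _)
  simp only [wt, Finset.sum_singleton]
  linarith

/-- For adjacent vertices, the neighbourhood of smaller weight is nearly inside the other. -/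
theorem wt_sdiff_le {k : ℕ} (hG : NoDS G k) {ρ η : ℝ} {d : ℕ} (hρ : 0 ≤ ρ) (hT : Tail ρ η d)
    (hd : ∀ v, d ≤ G.degree v) {u v : V} (huv : G.Adj u v)
    (hW : wt G ρ (G.neighborFinset u) ≤ wt G ρ (G.neighborFinset v)) :
    wt G ρ (G.neighborFinset u \ G.neighborFinset v) ≤ (2 * k + 1 : ℕ) * η := by
  have key : ∀ a b : V, (∀ D, (low G D (G.neighborFinset a \ cN G b)).card < 2 * k * (D + 1)) →
      wt G ρ (G.neighborFinset a \ G.neighborFinset b) ≤ (2 * k + 1 : ℕ) * η := by
    intro a b h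
    have h1 : wt G ρ (G.neighborFinset a \ cN G b) ≤ (2 * k : ℕ) * η :=
      wt_le_of_sparse hρ hT hd fun D => (h D).le
    have h2 := wt_singleton_le hρ hT hd b
    have h3 : G.neighborFinset a \ G.neighborFinset b ⊆ (G.neighborFinset a \ cN G b) ∪ {b} := by
      intro z hz
      rw [Finset.mem_sdiff] at hz
      by_cases hzb : z = b
      · exact Finset.mem_union_right _ (Finset.mem_singleton.2 hzb)
      · apply Finset.mem_union_left
        refine Finset.mem_sdiff.2 ⟨hz.1, fun h' => ?_⟩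
        rcases mem_cN.1 h' with h' | h'
        · exact hzb h'
        · exact hz.2 ((SimpleGraph.mem_neighborFinset _ _ _).2 h')
    have h4 := (wt_mono (G := G) hρ h3).trans (wt_union_le hρ _ _)
    push_cast at h1 ⊢
    linarith
  rcases nested hG huv with h | h
  · exact key u v h
  · have h1 := key v u h
    have h2 : wt G ρ (G.neighborFinset u ∩ G.neighborFinset v) +
        wt G ρ (G.neighborFinset u \ G.neighborFinset v) = wt G ρ (G.neighborFinset u) :=
      Finset.sum_inter_add_sum_sdiff _ _ _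
    have h3 : wt G ρ (G.neighborFinset v ∩ G.neighborFinset u) +
        wt G ρ (G.neighborFinset v \ G.neighborFinset u) = wt G ρ (G.neighborFinset v) :=
      Finset.sum_inter_add_sum_sdiff _ _ _
    rw [Finset.inter_comm] at h3
    linarith

omit [Fintype V] in
/-- Kernels of the orientation given by a real potential. -/
theorem exists_kernel (W : V → ℝ) (S : Finset V) :
    ∃ F ⊆ S, Indep G F ∧ ∀ u ∈ S, u ∉ F → ∃ u' ∈ F, G.Adj u u' ∧ W u ≤ W u' := by
  induction S using Finset.strongInduction with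
  | H S ih =>
    rcases S.eq_empty_or_nonempty with rfl | hne
    · exact ⟨∅, Finset.empty_subset _, fun x hx => absurd hx (Finset.notMem_empty x),
        fun u hu => absurd hu (Finset.notMem_empty u)⟩
    · obtain ⟨v, hv, hmax⟩ := Finset.exists_max_image S W hne
      obtain ⟨F, hFS, hF, hker⟩ := ih (S.filter fun z => z ≠ v ∧ ¬ G.Adj v z) (by
        refine ⟨Finset.filter_subset _ _, fun h => ?_⟩
        have := (Finset.mem_filter.1 (h hv)).2.1
        exact this rfl)
      refine ⟨insert v F, Finset.insert_subset hv (hFS.trans (Finset.filter_subset _ _)), ?_, ?_⟩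
      · intro x hx y hy
        rcases Finset.mem_insert.1 hx with rfl | hx' <;>
          rcases Finset.mem_insert.1 hy with rfl | hy'
        · exact G.irrefl
        · exact (Finset.mem_filter.1 (hFS hy')).2.2
        · exact fun h => (Finset.mem_filter.1 (hFS hx')).2.2 h.symm
        · exact hF x hx' y hy'
      · intro u hu huF
        rw [Finset.mem_insert, not_or] at huF
        by_cases hadj : G.Adj v u
        · exact ⟨v, Finset.mem_insert_self _ _, hadj.symm, hmax u hu⟩
        · obtain ⟨u', hu', h⟩ := hker u (Finset.mem_filter.2 ⟨hu, huF.1, hadj⟩) huF.2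
          exact ⟨u', Finset.mem_insert_of_mem hu', h⟩

omit [Fintype V] in
/-- Iterated kernels. -/
theorem exists_kernels (W : V → ℝ) (c : ℕ) (S : Finset V) :
    ∃ F : Fin c → Finset V, (∀ i, F i ⊆ S) ∧ (∀ i, Indep G (F i)) ∧
      (∀ i j v, v ∈ F i → v ∈ F j → i = j) ∧
      ∀ u ∈ S, (∀ i, u ∉ F i) → ∀ i, ∃ u' ∈ F i, G.Adj u u' ∧ W u ≤ W u' := by
  induction c generalizing S with
  | zero => exact ⟨fun i => i.elim0, fun i => i.elim0, fun i => i.elim0, fun i => i.elim0,
      fun _ _ _ i => i.elim0⟩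
  | succ c ih =>
    obtain ⟨F₀, hF₀S, hF₀, hker⟩ := exists_kernel (G := G) W S
    obtain ⟨F, hFS, hF, hdisj, hk⟩ := ih (S \ F₀)
    refine ⟨Fin.cons F₀ F, ?_, ?_, ?_, ?_⟩
    · intro i
      refine Fin.cases ?_ (fun j => ?_) i
      · simpa using hF₀S
      · simpa using (hFS j).trans Finset.sdiff_subset
    · intro i
      refine Fin.cases ?_ (fun j => ?_) i
      · simpa using hF₀
      · simpa using hF j
    · intro i j v
      refine Fin.cases ?_ (fun i' => ?_) i <;> refine Fin.cases ?_ (fun j' => ?_) j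
      · intro _ _; rfl
      · intro h1 h2
        simp only [Fin.cons_zero, Fin.cons_succ] at h1 h2
        exact absurd h1 (Finset.mem_sdiff.1 (hFS j' h2)).2
      · intro h1 h2
        simp only [Fin.cons_zero, Fin.cons_succ] at h1 h2
        exact absurd h2 (Finset.mem_sdiff.1 (hFS i' h1)).2
      · intro h1 h2
        simp only [Fin.cons_succ] at h1 h2
        rw [hdisj i' j' v h1 h2]
    · intro u hu hnot i
      have h0 : u ∉ F₀ := by simpa using hnot 0
      refine Fin.cases ?_ (fun j => ?_) i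
      · simpa using hker u hu h0
      · simpa using hk u (Finset.mem_sdiff.2 ⟨hu, h0⟩) (fun j' => by simpa using hnot j'.succ) j

/-- A maximal family of pairwise disjoint admissible sets. -/
theorem exists_packing (Q : Finset V → Prop) (hQ : ∀ J, Q J → J.Nonempty) :
    ∃ 𝒥 : Finset (Finset V), (∀ J ∈ 𝒥, Q J) ∧
      (∀ J ∈ 𝒥, ∀ J' ∈ 𝒥, ∀ v, v ∈ J → v ∈ J' → J = J') ∧
      ∀ J, Q J → ∃ J' ∈ 𝒥, ∃ v, v ∈ J ∧ v ∈ J' := by
  classical
  obtain ⟨𝒥, h𝒥, hmax⟩ := Finset.exists_max_image
    ((Finset.univ : Finset (Finset (Finset V))).filter fun 𝒥 => (∀ J ∈ 𝒥, Q J) ∧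
      (∀ J ∈ 𝒥, ∀ J' ∈ 𝒥, ∀ v, v ∈ J → v ∈ J' → J = J')) Finset.card
    ⟨∅, by simp⟩
  obtain ⟨h1, h2⟩ := (Finset.mem_filter.1 h𝒥).2
  refine ⟨𝒥, h1, h2, fun J hJ => ?_⟩
  by_contra hcon
  push Not at hcon
  have hJ𝒥 : J ∉ 𝒥 := by
    intro h
    obtain ⟨v, hv⟩ := hQ J hJ
    exact hcon J h v hv hv
  have := hmax (insert J 𝒥) (Finset.mem_filter.2 ⟨Finset.mem_univ _, ?_, ?_⟩)
  · rw [Finset.card_insert_of_notMem hJ𝒥] at this
    omega
  · intro J' hJ'
    rcases Finset.mem_insert.1 hJ' with rfl | hJ'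
    · exact hJ
    · exact h1 J' hJ'
  · intro A hA B hB v hvA hvB
    rcases Finset.mem_insert.1 hA with rfl | hA' <;> rcases Finset.mem_insert.1 hB with rfl | hB'
    · rfl
    · exact absurd hvB (hcon B hB' v hvA)
    · exact absurd hvA (hcon A hA' v hvB)
    · exact h2 A hA' B hB' v hvA hvB

omit [Fintype V] in
/-- A set with at least `k t` elements contains `k` disjoint blocks of size `t`. -/
theorem exists_blocks (t k : ℕ) (J : Finset V) (h : k * t ≤ J.card) :
    ∃ b : Fin k → Finset V, (∀ i, b i ⊆ J) ∧ (∀ i, (b i).card = t) ∧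
      ∀ i j v, v ∈ b i → v ∈ b j → i = j := by
  induction k generalizing J with
  | zero => exact ⟨fun i => i.elim0, fun i => i.elim0, fun i => i.elim0, fun i => i.elim0⟩
  | succ k ih =>
    have h5 : (k + 1) * t = k * t + t := by ring
    obtain ⟨b₀, hb₀J, hb₀⟩ := Finset.exists_subset_card_eq (s := J) (n := t) (by omega)
    obtain ⟨b, hbJ, hb, hdisj⟩ := ih (J \ b₀) (by
      rw [Finset.card_sdiff_of_subset hb₀J]; omega)
    refine ⟨Fin.cons b₀ b, ?_, ?_, ?_⟩
    · intro i
      refine Fin.cases ?_ (fun j => ?_) i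
      · simpa using hb₀J
      · simpa using (hbJ j).trans Finset.sdiff_subset
    · intro i
      refine Fin.cases ?_ (fun j => ?_) i
      · simpa using hb₀
      · simpa using hb j
    · intro i j v
      refine Fin.cases ?_ (fun i' => ?_) i <;> refine Fin.cases ?_ (fun j' => ?_) j
      · intro _ _; rfl
      · intro h1 h2
        simp only [Fin.cons_zero, Fin.cons_succ] at h1 h2
        exact absurd h1 (Finset.mem_sdiff.1 (hbJ j' h2)).2
      · intro h1 h2
        simp only [Fin.cons_zero, Fin.cons_succ] at h1 h2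
        exact absurd h2 (Finset.mem_sdiff.1 (hbJ i' h1)).2
      · intro h1 h2
        simp only [Fin.cons_succ] at h1 h2
        rw [hdisj i' j' v h1 h2]

end Pool.Agent.Lib.MP_1aa2a2_co
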