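import Mathlib
import Pool.Agent.Shared.CountingLLL
import Pool.Agent.Lib.MP_1aa2a2_co.Basic

/-!
Main colouring theorem: a graph with no induced double star `S_{k,k}` and large minimum degree has
a colouring with `c` colours in which every vertex has neighbours of all colours.
-/

set_option autoImplicit false
set_option linter.unusedSectionVars false

namespace Pool.Agent.Lib.MP_1aa2a2_co

open Finset

section
variable {V : Type*} [Fintype V] [DecidableEq V] {G : SimpleGraph V} [DecidableRel G.Adj]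

/-- `y` has at least `(2k+1)(D+1)` neighbours of degree at most `D`, for some `D`. -/
def Rich (G : SimpleGraph V) [DecidableRel G.Adj] (k : ℕ) (y : V) : Prop :=
  ∃ D, (2 * k + 1) * (D + 1) ≤ (low G D (G.neighborFinset y)).card

/-- `y` has at least `(4k+1)(D+1)` neighbours of degree at most `D`, for some `D`. -/
def Heavy (G : SimpleGraph V) [DecidableRel G.Adj] (k : ℕ) (y : V) : Prop :=
  ∃ D, (4 * k + 1) * (D + 1) ≤ (low G D (G.neighborFinset y)).card

theorem low_subset (D : ℕ) (Z : Finset V) : low G D Z ⊆ Z := Finset.filter_subset _ _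

/-- At its least scale, a rich vertex has many neighbours, none of them heavy. -/
theorem rich_edge {k : ℕ} (hG : NoDS G k) {y : V} (hy : Rich G k y) :
    ∃ E : Finset V, E.Nonempty ∧ ∀ z ∈ E, G.Adj y z ∧ ¬ Heavy G k z ∧ G.degree z ≤ E.card := by
  classical
  have hD := Nat.find_spec hy
  set D := Nat.find hy with hDdef
  have hmin : ∀ D' < D, ¬ (2 * k + 1) * (D' + 1) ≤ (low G D' (G.neighborFinset y)).card :=
    fun D' h => Nat.find_min hy h
  have hexp : (2 * k + 1) * (D + 1) = 2 * k * (D + 1) + (D + 1) := by ring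
  refine ⟨low G D (G.neighborFinset y), Finset.card_pos.1 (by omega), fun z hz => ?_⟩
  have hz1 : G.Adj y z := (SimpleGraph.mem_neighborFinset _ _ _).1 (mem_low.1 hz).1
  have hz2 : G.degree z ≤ D := (mem_low.1 hz).2
  refine ⟨hz1, ?_, by omega⟩
  rintro ⟨D', hD'⟩
  have h1 : (low G D' (G.neighborFinset z)).card ≤ G.degree z := by
    rw [← SimpleGraph.card_neighborFinset_eq_degree]
    exact Finset.card_le_card (low_subset _ _)
  have hexp' : (4 * k + 1) * (D' + 1) = 2 * k * (D' + 1) + 2 * k * (D' + 1) + (D' + 1) := by ring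
  have hexp'' : (2 * k + 1) * (D' + 1) = 2 * k * (D' + 1) + (D' + 1) := by ring
  have hlt : D' < D := by omega
  rcases nested hG hz1 with h | h
  · have h2 := h D
    have h3 : low G D (G.neighborFinset y) ⊆ low G D (G.neighborFinset y \ cN G z) ∪ cN G z := by
      intro w hw
      by_cases hwz : w ∈ cN G z
      · exact Finset.mem_union_right _ hwz
      · exact Finset.mem_union_left _
          (mem_low.2 ⟨Finset.mem_sdiff.2 ⟨(mem_low.1 hw).1, hwz⟩, (mem_low.1 hw).2⟩)
    have h4 := (Finset.card_le_card h3).trans (Finset.card_union_le _ _)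
    rw [card_cN] at h4
    omega
  · have h2 := h D'
    have h3 : low G D' (G.neighborFinset z) ⊆
        (low G D' (G.neighborFinset z \ cN G y) ∪ low G D' (G.neighborFinset y)) ∪ {y} := by
      intro w hw
      by_cases hwy : w ∈ cN G y
      · rcases mem_cN.1 hwy with rfl | hadj
        · exact Finset.mem_union_right _ (Finset.mem_singleton_self _)
        · exact Finset.mem_union_left _ (Finset.mem_union_right _
            (mem_low.2 ⟨(SimpleGraph.mem_neighborFinset _ _ _).2 hadj, (mem_low.1 hw).2⟩))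
      · exact Finset.mem_union_left _ (Finset.mem_union_left _
          (mem_low.2 ⟨Finset.mem_sdiff.2 ⟨(mem_low.1 hw).1, hwy⟩, (mem_low.1 hw).2⟩))
    have h4 := (Finset.card_le_card h3).trans ((Finset.card_union_le _ _).trans
      (Nat.add_le_add_right (Finset.card_union_le _ _) _))
    rw [Finset.card_singleton] at h4
    have h5 := hmin D' hlt
    omega

theorem wt_not_rich {k : ℕ} {ρ η : ℝ} {d : ℕ} (hρ : 0 ≤ ρ) (hT : Tail ρ η d)
    (hd : ∀ v, d ≤ G.degree v) {x : V} (hx : ¬ Rich G k x) :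
    wt G ρ (G.neighborFinset x) ≤ (2 * k + 1 : ℕ) * η := by
  apply wt_le_of_sparse hρ hT hd
  intro D
  by_contra h
  exact hx ⟨D, (not_le.1 h).le⟩

theorem wt_not_heavy {k : ℕ} {ρ η : ℝ} {d : ℕ} (hρ : 0 ≤ ρ) (hT : Tail ρ η d)
    (hd : ∀ v, d ≤ G.degree v) {x : V} (hx : ¬ Heavy G k x) :
    wt G ρ (G.neighborFinset x) ≤ (4 * k + 1 : ℕ) * η := by
  apply wt_le_of_sparse hρ hT hd
  intro D
  by_contra h
  exact hx ⟨D, (not_le.1 h).le⟩

/-- If `J` is an independent set in the neighbourhood of a vertex that is not rich, then almost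
all neighbours of a vertex of `J` are adjacent to a whole block of `J`. -/
theorem wt_block {k t : ℕ} (hG : NoDS G k) {ρ η : ℝ} {d : ℕ} (hρ : 0 ≤ ρ) (hT : Tail ρ η d)
    (hd : ∀ v, d ≤ G.degree v) {x₀ u : V} {J : Finset V} (hJ : Indep G J) (hu : u ∈ J)
    (hJx : ∀ z ∈ J, G.Adj x₀ z) (hx₀ : ¬ Rich G k x₀) (b : Fin k → Finset V)
    (hbJ : ∀ i, b i ⊆ J) (hbt : ∀ i, (b i).card = t)
    (hdisj : ∀ i j v, v ∈ b i → v ∈ b j → i = j) (Y : Finset V)
    (hY : ∀ x ∈ Y, G.Adj u x ∧ ∀ i, ∃ z ∈ b i, ¬ G.Adj x z) :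
    wt G ρ Y ≤ (t ^ k * k + (2 * k + 2) : ℕ) * η := by
  classical
  let Z : (Fin k → V) → Finset V := fun z =>
    (G.neighborFinset u \ cN G x₀).filter fun x => ∀ i, ¬ G.Adj x (z i)
  have hZ : ∀ z ∈ Fintype.piFinset b, wt G ρ (Z z) ≤ k * η := by
    intro z hz
    rw [Fintype.mem_piFinset] at hz
    apply wt_le_of_sparse hρ hT hd
    intro D
    by_contra hcon
    obtain ⟨I', hI'Z, hI'c, hI'⟩ := exists_indep (G := G) D k (low G D (Z z))
      (fun w hw => (mem_low.1 hw).2) (not_le.1 hcon).le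
    have hmem : ∀ y ∈ I', G.Adj u y ∧ (¬ G.Adj x₀ y ∧ y ≠ x₀) ∧ ∀ i, ¬ G.Adj y (z i) := by
      intro y hy
      have h1 := Finset.mem_filter.1 (mem_low.1 (hI'Z hy)).1
      have h2 := Finset.mem_sdiff.1 h1.1
      rw [SimpleGraph.mem_neighborFinset, mem_cN] at h2
      exact ⟨h2.1, ⟨fun h => h2.2 (Or.inr h), fun h => h2.2 (Or.inl h)⟩, h1.2⟩
    have hinj : Function.Injective z := by
      intro i j hij
      exact hdisj i j (z i) (hz i) (hij ▸ hz j)
    have hIJ : ∀ x ∈ Finset.univ.image z, x ∈ J := by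
      intro x hx
      obtain ⟨i, _, rfl⟩ := Finset.mem_image.1 hx
      exact hbJ i (hz i)
    refine hG x₀ u (Finset.univ.image z) I' (hJx u hu) ?_ hI'c ?_ hI' ?_ ?_ ?_
    · rw [Finset.card_image_of_injective _ hinj, Finset.card_univ, Fintype.card_fin]
    · exact fun x hx y hy => hJ x (hIJ x hx) y (hIJ y hy)
    · intro x hx
      refine ⟨hJx x (hIJ x hx), hJ u hu x (hIJ x hx), ?_⟩
      obtain ⟨i, _, rfl⟩ := Finset.mem_image.1 hx
      intro hzu
      obtain ⟨y, hy⟩ : I'.Nonempty := Finset.card_pos.1 (by rw [hI'c]; exact i.pos)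
      exact (hmem y hy).2.2 i (hzu ▸ (hmem y hy).1.symm)
    · intro y hy
      exact ⟨(hmem y hy).1, (hmem y hy).2.1⟩
    · intro x hx y hy hxy
      obtain ⟨i, _, rfl⟩ := Finset.mem_image.1 hx
      exact (hmem y hy).2.2 i hxy.symm
  have hsub : Y ⊆ (Fintype.piFinset b).biUnion Z ∪ ({x₀} ∪ G.neighborFinset x₀) := by
    intro x hx
    by_cases hxc : x ∈ cN G x₀
    · apply Finset.mem_union_right
      rcases mem_cN.1 hxc with rfl | h
      · exact Finset.mem_union_left _ (Finset.mem_singleton_self _)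
      · exact Finset.mem_union_right _ ((SimpleGraph.mem_neighborFinset _ _ _).2 h)
    · apply Finset.mem_union_left
      choose z hz1 hz2 using (hY x hx).2
      refine Finset.mem_biUnion.2 ⟨z, Fintype.mem_piFinset.2 hz1, Finset.mem_filter.2 ⟨?_, hz2⟩⟩
      exact Finset.mem_sdiff.2 ⟨(SimpleGraph.mem_neighborFinset _ _ _).2 (hY x hx).1, hxc⟩
  have h1 := (wt_mono (G := G) hρ hsub).trans (wt_union_le hρ _ _)
  have h2 := wt_biUnion_le hρ (Fintype.piFinset b) Z _ hZ
  have h3 := wt_union_le (G := G) hρ {x₀} (G.neighborFinset x₀)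
  have h4 := wt_singleton_le hρ hT hd x₀
  have h5 := wt_not_rich hρ hT hd hx₀
  have h6 : (Fintype.piFinset b).card = t ^ k := by
    rw [Fintype.card_piFinset]; simp [hbt]
  rw [h6] at h2
  push_cast at h2 h5 ⊢
  linarith

end

/-- The main theorem. -/
theorem main (k c : ℕ) (hk : 1 ≤ k) (hc : 1 ≤ c) :
    ∃ d : ℕ, ∀ (V : Type) [Fintype V] [DecidableEq V] (G : SimpleGraph V) [DecidableRel G.Adj],
      NoDS G k → (∀ v, d ≤ G.degree v) →
      ∃ φ : V → Fin c, ∀ v j, ∃ z, G.Adj v z ∧ φ z = j := by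
  classical
  have hcR : (1 : ℝ) ≤ c := by exact_mod_cast hc
  have hc0 : (0 : ℝ) < c := by linarith
  set ρ : ℝ := 1 - 1 / (2 * (c : ℝ)) with hρdef
  set ε : ℝ := 1 / (2 * (c : ℝ) ^ 2) with hεdef
  have hhalf : 1 / (2 * (c : ℝ)) ≤ 1 / 2 := by
    apply one_div_le_one_div_of_le <;> linarith
  have hpos' : 0 < 1 / (2 * (c : ℝ)) := by positivity
  have hρ0 : 0 < ρ := by linarith
  have hρ1 : ρ < 1 := by linarith
  have hε0 : 0 < ε := by positivity
  obtain ⟨t₀, ht₀⟩ := exists_pow_lt_of_lt_one (half_pos hε0) hρ1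
  set t := t₀ + 1 with htdef
  have ht : ρ ^ t ≤ ε / 2 :=
    (pow_le_pow_of_le_one hρ0.le hρ1.le (Nat.le_succ t₀)).trans ht₀.le
  have ht1 : 1 ≤ t := Nat.le_add_left 1 t₀
  set s := k * t with hsdef
  have hs1 : 1 ≤ s := Nat.mul_pos hk ht1
  set M : ℝ := (ρ ^ (c * s))⁻¹ with hMdef
  have hM0 : 0 < M := inv_pos.2 (pow_pos hρ0 _)
  set K : ℕ := (4 * k + 1) + c * (2 * k + 1) + (t ^ k * k + (2 * k + 2)) with hKdef
  set η : ℝ := ε / (2 * (1 + M * K)) with hηdef
  have hden : (0 : ℝ) < 1 + M * K := by positivity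
  have hη0 : 0 < η := by positivity
  obtain ⟨d₀, hd₀⟩ := exists_tail hρ0.le hρ1 hη0
  refine ⟨max d₀ (c * s + 1), ?_⟩
  intro V _ _ G _ hG hd
  have hT := hd₀ _ (le_max_left d₀ (c * s + 1))
  have hdcs : ∀ v, c * s + 1 ≤ G.degree v := fun v => (le_max_right _ _).trans (hd v)
  -- the packing
  obtain ⟨𝒥, h𝒥Q, h𝒥disj, h𝒥max⟩ := exists_packing (V := V)
    (fun J => J.card = s ∧ (∀ z ∈ J, Heavy G k z) ∧ Indep G J ∧
      ∃ x, ¬ Rich G k x ∧ ∀ z ∈ J, G.Adj x z)
    (fun J hJ => Finset.card_pos.1 (by rw [hJ.1]; exact hs1))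
  have hb : ∀ J : Finset V, ∃ b : Fin k → Finset V, J.card = s →
      (∀ i, b i ⊆ J) ∧ (∀ i, (b i).card = t) ∧ ∀ i j v, v ∈ b i → v ∈ b j → i = j := by
    intro J
    by_cases h : J.card = s
    · obtain ⟨b, hb⟩ := exists_blocks t k J h.ge
      exact ⟨b, fun _ => hb⟩
    · exact ⟨fun _ => ∅, fun h' => absurd h' h⟩
  choose b hb using hb
  -- the kernels
  obtain ⟨F, hFS, hFind, hFdisj, hFker⟩ := exists_kernels (G := G)
    (fun v => wt G ρ (G.neighborFinset v)) c
    (Finset.univ.filter fun v => Heavy G k v ∧ ∀ J ∈ 𝒥, v ∉ J)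
  have hFprop : ∀ i, ∀ v ∈ F i, Heavy G k v ∧ ∀ J ∈ 𝒥, v ∉ J :=
    fun i v hv => (Finset.mem_filter.1 (hFS i hv)).2
  set FF : Finset V := Finset.univ.biUnion F with hFF
  have memFF : ∀ v, v ∈ FF ↔ ∃ i, v ∈ F i := by
    intro v; simp [hFF]
  -- the edges of rich vertices
  have hE : ∀ y : V, ∃ E : Finset V, Rich G k y →
      E.Nonempty ∧ ∀ z ∈ E, G.Adj y z ∧ ¬ Heavy G k z ∧ G.degree z ≤ E.card := by
    intro y
    by_cases h : Rich G k y
    · obtain ⟨E, hE⟩ := rich_edge hG h
      exact ⟨E, fun _ => hE⟩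
    · exact ⟨∅, fun h' => absurd h' h⟩
  choose E hE using hE
  -- vertices that are not rich have few neighbours among the kernels
  have hpoor : ∀ x, ¬ Rich G k x → G.degree x ≤ (G.neighborFinset x \ FF).card + c * s := by
    intro x hx
    have h1 : ∀ i, (G.neighborFinset x ∩ F i).card ≤ s := by
      intro i
      by_contra hcon
      obtain ⟨J, hJsub, hJc⟩ := Finset.exists_subset_card_eq (not_le.1 hcon).le
      have hJF : ∀ z ∈ J, z ∈ F i := fun z hz => (Finset.mem_inter.1 (hJsub hz)).2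
      obtain ⟨J', hJ', v, hv1, hv2⟩ := h𝒥max J ⟨hJc, fun z hz => (hFprop i z (hJF z hz)).1,
        fun z hz w hw => hFind i z (hJF z hz) w (hJF w hw), x, hx, fun z hz =>
          (SimpleGraph.mem_neighborFinset _ _ _).1 (Finset.mem_inter.1 (hJsub hz)).1⟩
      exact (hFprop i v (hJF v hv1)).2 J' hJ' hv2
    have h2 : G.neighborFinset x ⊆ (G.neighborFinset x \ FF) ∪
        Finset.univ.biUnion fun i => G.neighborFinset x ∩ F i := by
      intro z hz
      by_cases hzF : z ∈ FF
      · obtain ⟨i, hi⟩ := (memFF z).1 hzF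
        exact Finset.mem_union_right _
          (Finset.mem_biUnion.2 ⟨i, Finset.mem_univ _, Finset.mem_inter.2 ⟨hz, hi⟩⟩)
      · exact Finset.mem_union_left _ (Finset.mem_sdiff.2 ⟨hz, hzF⟩)
    have h3 : (Finset.univ.biUnion fun i => G.neighborFinset x ∩ F i).card ≤ c * s := by
      calc _ ≤ ∑ i, (G.neighborFinset x ∩ F i).card := Finset.card_biUnion_le
        _ ≤ ∑ _i : Fin c, s := Finset.sum_le_sum fun i _ => h1 i
        _ = c * s := by simp
    have h4 := (Finset.card_le_card h2).trans (Finset.card_union_le _ _)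
    rw [SimpleGraph.card_neighborFinset_eq_degree] at h4
    omega
  let Bad : V → Prop := fun x => ¬ Rich G k x ∧ (∃ i, ∀ z ∈ F i, ¬ G.Adj x z) ∧
    ∀ J ∈ 𝒥, ∀ i, ∃ z ∈ b J i, ¬ G.Adj x z
  -- the weight of the bad neighbours of a free vertex
  have hbad : ∀ v, v ∉ FF → ∀ Y : Finset V, (∀ x ∈ Y, G.Adj v x ∧ Bad x) →
      wt G ρ Y ≤ K * η := by
    intro v hv Y hY
    have hK1 : ((4 * k + 1 : ℕ) : ℝ) ≤ K := by
      have : 4 * k + 1 ≤ K := by omega
      exact_mod_cast this
    have hK2 : ((c * (2 * k + 1) : ℕ) : ℝ) ≤ K := by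
      have : c * (2 * k + 1) ≤ K := by omega
      exact_mod_cast this
    have hK3 : ((t ^ k * k + (2 * k + 2) : ℕ) : ℝ) ≤ K := by
      have : t ^ k * k + (2 * k + 2) ≤ K := by omega
      exact_mod_cast this
    by_cases hH : Heavy G k v
    · by_cases hU : ∀ J ∈ 𝒥, v ∉ J
      · have hker := hFker v (Finset.mem_filter.2 ⟨Finset.mem_univ _, hH, hU⟩)
          (fun i hi => hv ((memFF v).2 ⟨i, hi⟩))
        choose u hu1 hu2 hu3 using hker
        have hsub : Y ⊆ Finset.univ.biUnion
            fun i => G.neighborFinset v \ G.neighborFinset (u i) := by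
          intro x hx
          obtain ⟨i, hi⟩ := (hY x hx).2.2.1
          refine Finset.mem_biUnion.2 ⟨i, Finset.mem_univ _, Finset.mem_sdiff.2
            ⟨(SimpleGraph.mem_neighborFinset _ _ _).2 (hY x hx).1, fun h => ?_⟩⟩
          exact hi (u i) (hu1 i) ((SimpleGraph.mem_neighborFinset _ _ _).1 h).symm
        have h1 := (wt_mono (G := G) hρ0.le hsub).trans (wt_biUnion_le hρ0.le _ _ _
          fun i _ => wt_sdiff_le hG hρ0.le hT hd (hu2 i) (hu3 i))
        rw [Finset.card_univ, Fintype.card_fin, ← mul_assoc, ← Nat.cast_mul] at h1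
        exact h1.trans (mul_le_mul_of_nonneg_right hK2 hη0.le)
      · push Not at hU
        obtain ⟨J, hJ, hvJ⟩ := hU
        obtain ⟨hJc, _, hJind, x₀, hx₀, hJx⟩ := h𝒥Q J hJ
        obtain ⟨hb1, hb2, hb3⟩ := hb J hJc
        have h1 := wt_block hG hρ0.le hT hd hJind hvJ hJx hx₀ (b J) hb1 hb2 hb3 Y
          fun x hx => ⟨(hY x hx).1, (hY x hx).2.2.2 J hJ⟩
        exact h1.trans (mul_le_mul_of_nonneg_right hK3 hη0.le)
    · have h1 := wt_not_heavy hρ0.le hT hd hH
      have hsub : Y ⊆ G.neighborFinset v := fun x hx =>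
        (SimpleGraph.mem_neighborFinset _ _ _).2 (hY x hx).1
      exact ((wt_mono (G := G) hρ0.le hsub).trans h1).trans
        (mul_le_mul_of_nonneg_right hK1 hη0.le)
  -- the hypergraph
  obtain ⟨φ, hφ⟩ := Pool.Agent.Shared.CountingLLL.exists_polychromatic (V := V) c hc
    ((Finset.univ.filter (Rich G k)).disjSum
      ((Finset.univ.filter Bad).disjSum (𝒥 ×ˢ (Finset.univ : Finset (Fin k)))))
    (Sum.elim E (Sum.elim (fun x => G.neighborFinset x \ FF) fun p => b p.1 p.2))
    (by
      rintro (y | x | p) hi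
      · rw [Finset.inl_mem_disjSum] at hi
        exact (hE y (Finset.mem_filter.1 hi).2).1
      · rw [Finset.inr_mem_disjSum, Finset.inl_mem_disjSum] at hi
        have h1 := hpoor x (Finset.mem_filter.1 hi).2.1
        have h2 := hdcs x
        exact Finset.card_pos.1 (by simp only [Sum.elim_inl, Sum.elim_inr]; omega)
      · rw [Finset.inr_mem_disjSum, Finset.inr_mem_disjSum] at hi
        have h1 := (hb p.1 (h𝒥Q p.1 (Finset.mem_product.1 hi).1).1).2.1 p.2
        exact Finset.card_pos.1 (by simp only [Sum.elim_inr]; omega))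
    (by
      intro v
      rw [Finset.sum_disjSum, Finset.sum_disjSum]
      simp only [Sum.elim_inl, Sum.elim_inr]
      rw [← hρdef, ← hεdef]
      have S1 : ∑ y ∈ Finset.univ.filter (Rich G k),
          (if v ∈ E y then ρ ^ (E y).card else 0) ≤ η := by
        rw [← Finset.sum_filter]
        have h1 := Finset.sum_le_card_nsmul
          ((Finset.univ.filter (Rich G k)).filter fun y => v ∈ E y) (fun y => ρ ^ (E y).card)
          (ρ ^ G.degree v) (by
            intro y hy
            rw [Finset.mem_filter, Finset.mem_filter] at hy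
            exact pow_le_pow_of_le_one hρ0.le hρ1.le ((hE y hy.1.2).2 v hy.2).2.2)
        have h2 : ((Finset.univ.filter (Rich G k)).filter fun y => v ∈ E y).card
            ≤ G.degree v := by
          rw [← SimpleGraph.card_neighborFinset_eq_degree]
          apply Finset.card_le_card
          intro y hy
          rw [Finset.mem_filter, Finset.mem_filter] at hy
          exact (SimpleGraph.mem_neighborFinset _ _ _).2 ((hE y hy.1.2).2 v hy.2).1.symm
        have h3 := hT.single (hd v)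
        have h4 : (0 : ℝ) ≤ ρ ^ G.degree v := pow_nonneg hρ0.le _
        have h5 : ((((Finset.univ.filter (Rich G k)).filter fun y => v ∈ E y).card : ℕ) : ℝ)
            ≤ (G.degree v : ℝ) + 1 := by
          have : ((((Finset.univ.filter (Rich G k)).filter fun y => v ∈ E y).card : ℕ) : ℝ)
            ≤ (G.degree v : ℝ) := by exact_mod_cast h2
          linarith
        rw [nsmul_eq_mul] at h1
        exact h1.trans ((mul_le_mul_of_nonneg_right h5 h4).trans h3)
      have S2 : ∑ x ∈ Finset.univ.filter Bad,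
          (if v ∈ G.neighborFinset x \ FF then ρ ^ (G.neighborFinset x \ FF).card else 0)
          ≤ M * (K * η) := by
        by_cases hv : v ∈ FF
        · rw [Finset.sum_eq_zero]
          · positivity
          · intro x _
            rw [if_neg]
            exact fun h => (Finset.mem_sdiff.1 h).2 hv
        · rw [← Finset.sum_filter]
          have h1 := hbad v hv
            ((Finset.univ.filter Bad).filter fun x => v ∈ G.neighborFinset x \ FF) (by
              intro x hx
              rw [Finset.mem_filter, Finset.mem_filter] at hx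
              exact ⟨((SimpleGraph.mem_neighborFinset _ _ _).1 (Finset.mem_sdiff.1 hx.2).1).symm,
                hx.1.2⟩)
          refine le_trans ?_ (mul_le_mul_of_nonneg_left h1 hM0.le)
          unfold wt
          rw [Finset.mul_sum]
          apply Finset.sum_le_sum
          intro x hx
          rw [Finset.mem_filter, Finset.mem_filter] at hx
          have h2 := hpoor x hx.1.2.1
          have h3 : ρ ^ ((G.neighborFinset x \ FF).card + c * s) ≤ ρ ^ G.degree x :=
            pow_le_pow_of_le_one hρ0.le hρ1.le h2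
          rw [pow_add] at h3
          rw [hMdef, le_inv_mul_iff₀ (pow_pos hρ0 _), mul_comm]
          exact h3
      have S3 : ∑ p ∈ 𝒥 ×ˢ (Finset.univ : Finset (Fin k)),
          (if v ∈ b p.1 p.2 then ρ ^ (b p.1 p.2).card else 0) ≤ ε / 2 := by
        rw [← Finset.sum_filter]
        have h1 := Finset.sum_le_card_nsmul
          ((𝒥 ×ˢ (Finset.univ : Finset (Fin k))).filter fun p => v ∈ b p.1 p.2)
          (fun p => ρ ^ (b p.1 p.2).card) (ε / 2) (by
            intro p hp
            rw [Finset.mem_filter, Finset.mem_product] at hp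
            rw [(hb p.1 (h𝒥Q p.1 hp.1.1).1).2.1 p.2]
            exact ht)
        have h2 : ((𝒥 ×ˢ (Finset.univ : Finset (Fin k))).filter
            fun p => v ∈ b p.1 p.2).card ≤ 1 := by
          rw [Finset.card_le_one]
          rintro ⟨J, i⟩ hp ⟨J', i'⟩ hp'
          rw [Finset.mem_filter, Finset.mem_product] at hp hp'
          have hJJ : J = J' := h𝒥disj J hp.1.1 J' hp'.1.1 v
            ((hb J (h𝒥Q J hp.1.1).1).1 i hp.2) ((hb J' (h𝒥Q J' hp'.1.1).1).1 i' hp'.2)
          subst hJJ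
          rw [(hb J (h𝒥Q J hp.1.1).1).2.2 i i' v hp.2 hp'.2]
        have h3 : ((((𝒥 ×ˢ (Finset.univ : Finset (Fin k))).filter
            fun p => v ∈ b p.1 p.2).card : ℕ) : ℝ) ≤ 1 := by exact_mod_cast h2
        rw [nsmul_eq_mul] at h1
        have h4 := mul_le_mul_of_nonneg_right h3 (half_pos hε0).le
        linarith
      have hfin : η + M * (K * η) = ε / 2 := by
        rw [hηdef]; field_simp
      refine le_trans (add_le_add S1 (add_le_add S2 S3)) ?_
      linarith)
  -- the final colouring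
  let ψ : V → Fin c := fun v => if h : ∃ i, v ∈ F i then Classical.choose h else φ v
  have hψF : ∀ i, ∀ v ∈ F i, ψ v = i := by
    intro i v hv
    have h : ∃ i, v ∈ F i := ⟨i, hv⟩
    simp only [ψ, dif_pos h]
    exact hFdisj _ _ v (Classical.choose_spec h) hv
  have hψφ : ∀ v, v ∉ FF → ψ v = φ v := by
    intro v hv
    have h : ¬ ∃ i, v ∈ F i := fun h => hv ((memFF v).2 h)
    simp only [ψ, dif_neg h]
  refine ⟨ψ, fun y j => ?_⟩
  by_cases hy : Rich G k y
  · obtain ⟨z, hz, hzj⟩ := hφ (Sum.inl y)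
      (Finset.inl_mem_disjSum.2 (Finset.mem_filter.2 ⟨Finset.mem_univ _, hy⟩)) j
    have hz' := (hE y hy).2 z hz
    refine ⟨z, hz'.1, ?_⟩
    rw [hψφ z, hzj]
    intro hzF
    obtain ⟨i, hi⟩ := (memFF z).1 hzF
    exact hz'.2.1 (hFprop i z hi).1
  · by_cases hB : Bad y
    · obtain ⟨z, hz, hzj⟩ := hφ (Sum.inr (Sum.inl y))
        (Finset.inr_mem_disjSum.2 (Finset.inl_mem_disjSum.2
          (Finset.mem_filter.2 ⟨Finset.mem_univ _, hB⟩))) j
      have hz' := Finset.mem_sdiff.1 hz
      exact ⟨z, (SimpleGraph.mem_neighborFinset _ _ _).1 hz'.1, by rw [hψφ z hz'.2, hzj]⟩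
    · by_cases h1 : ∃ i, ∀ z ∈ F i, ¬ G.Adj y z
      · have h2 : ¬ ∀ J ∈ 𝒥, ∀ i, ∃ z ∈ b J i, ¬ G.Adj y z := fun h2 => hB ⟨hy, h1, h2⟩
        push Not at h2
        obtain ⟨J, hJ, i, hi⟩ := h2
        obtain ⟨z, hz, hzj⟩ := hφ (Sum.inr (Sum.inr (J, i)))
          (Finset.inr_mem_disjSum.2 (Finset.inr_mem_disjSum.2
            (Finset.mem_product.2 ⟨hJ, Finset.mem_univ _⟩))) j
        refine ⟨z, hi z hz, ?_⟩
        rw [hψφ z, hzj]
        intro hzF
        obtain ⟨i', hi'⟩ := (memFF z).1 hzF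
        exact (hFprop i' z hi').2 J hJ ((hb J (h𝒥Q J hJ).1).1 i hz)
      · push Not at h1
        obtain ⟨z, hz, hadj⟩ := h1 j
        exact ⟨z, hadj, hψF j z hz⟩

end Pool.Agent.Lib.MP_1aa2a2_co
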