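import Mathlib
import Pool.Agent.Lib.MP_1aa2a2_co.Main

/-!
Graphs with no induced double star form a DOM-bounded class.
-/

set_option autoImplicit false

namespace Pool.Agent.Lib.MP_1aa2a2_co.OldDomBounded

open Pool.Agent.Lib.MP_1aa2a2_co

/-- `X` is dominating in `G`: every vertex lies in `X` or has a neighbour in `X`. -/
def IsDominating {V : Type} (G : SimpleGraph V) (X : Finset V) : Prop :=
  ∀ v : V, v ∈ X ∨ ∃ x ∈ X, G.Adj v x

/-- The domatic number: the largest `k` such that the vertex set has a partition into `k`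
dominating sets. -/
noncomputable def domaticNumber {V : Type} [Fintype V] [DecidableEq V] (G : SimpleGraph V) : ℕ :=
  sSup {k : ℕ | ∃ P : Finpartition (Finset.univ : Finset V),
    P.parts.card = k ∧ ∀ X ∈ P.parts, IsDominating G X}

/-- The double star `S_{a,b}`: centres `inl none` and `inr none`, joined by an edge, with the `a`
pendant vertices `inl (some i)` at the first and the `b` pendant vertices `inr (some j)` at the
second. -/
def doubleStar (a b : ℕ) : SimpleGraph (Option (Fin a) ⊕ Option (Fin b)) :=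
  SimpleGraph.fromRel fun x y =>
    (x = Sum.inl none ∧ y = Sum.inr none) ∨
    (x = Sum.inl none ∧ ∃ i, y = Sum.inl (some i)) ∨
    (x = Sum.inr none ∧ ∃ j, y = Sum.inr (some j))

theorem noDS_of_free {V : Type} [Fintype V] [DecidableEq V] (G : SimpleGraph V)
    [DecidableRel G.Adj] {a b k : ℕ} (ha : a ≤ k) (hb : b ≤ k)
    (h : ¬ (doubleStar a b).IsIndContained G) : NoDS G k := by
  intro u v I J huv hI hJ hIi hJi hIu hJv hIJ
  apply h
  obtain ⟨p, hp⟩ : ∃ p : Fin a ↪ V, ∀ i, p i ∈ I := by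
    obtain ⟨p⟩ : Nonempty (Fin a ↪ I) := Function.Embedding.nonempty_of_card_le (by simpa [hI])
    exact ⟨p.trans (Function.Embedding.subtype _), fun i => (p i).2⟩
  obtain ⟨q, hq⟩ : ∃ q : Fin b ↪ V, ∀ i, q i ∈ J := by
    obtain ⟨q⟩ : Nonempty (Fin b ↪ J) := Function.Embedding.nonempty_of_card_le (by simpa [hJ])
    exact ⟨q.trans (Function.Embedding.subtype _), fun i => (q i).2⟩
  have h1 : ∀ i, G.Adj u (p i) := fun i => (hIu _ (hp i)).1
  have h2 : ∀ i, ¬ G.Adj v (p i) := fun i => (hIu _ (hp i)).2.1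
  have h3 : ∀ i, p i ≠ v := fun i => (hIu _ (hp i)).2.2
  have h4 : ∀ j, G.Adj v (q j) := fun j => (hJv _ (hq j)).1
  have h5 : ∀ j, ¬ G.Adj u (q j) := fun j => (hJv _ (hq j)).2.1
  have h6 : ∀ j, q j ≠ u := fun j => (hJv _ (hq j)).2.2
  have h7 : ∀ i i', ¬ G.Adj (p i) (p i') := fun i i' => hIi _ (hp i) _ (hp i')
  have h8 : ∀ j j', ¬ G.Adj (q j) (q j') := fun j j' => hJi _ (hq j) _ (hq j')
  have h9 : ∀ i j, ¬ G.Adj (p i) (q j) := fun i j => hIJ _ (hp i) _ (hq j)
  have h1' : ∀ i, G.Adj (p i) u := fun i => (h1 i).symm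
  have h2' : ∀ i, ¬ G.Adj (p i) v := fun i h => h2 i h.symm
  have h4' : ∀ j, G.Adj (q j) v := fun j => (h4 j).symm
  have h5' : ∀ j, ¬ G.Adj (q j) u := fun j h => h5 j h.symm
  have h9' : ∀ i j, ¬ G.Adj (q j) (p i) := fun i j h => h9 i j h.symm
  have hvu : G.Adj v u := huv.symm
  have n1 : ∀ i, u ≠ p i := fun i => (h1 i).ne
  have n2 : ∀ j, v ≠ q j := fun j => (h4 j).ne
  have n3 : ∀ i j, p i ≠ q j := fun i j h => h5 j (h ▸ h1 i)
  have n4 : u ≠ v := huv.ne
  let f : Option (Fin a) ⊕ Option (Fin b) → V :=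
    Sum.elim (fun o => o.elim u p) (fun o => o.elim v q)
  have hf : Function.Injective f := by
    rintro ((_ | i) | (_ | j)) ((_ | i') | (_ | j')) hxy <;> simp only [f, Sum.elim_inl,
      Sum.elim_inr, Option.elim_none, Option.elim_some] at hxy
    · rfl
    · exact absurd hxy (n1 _)
    · exact absurd hxy n4
    · exact absurd hxy.symm (h6 _)
    · exact absurd hxy.symm (n1 _)
    · rw [p.injective hxy]
    · exact absurd hxy (h3 _)
    · exact absurd hxy (n3 _ _)
    · exact absurd hxy.symm n4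
    · exact absurd hxy.symm (h3 _)
    · rfl
    · exact absurd hxy (n2 _)
    · exact absurd hxy (h6 _)
    · exact absurd hxy.symm (n3 _ _)
    · exact absurd hxy.symm (n2 _)
    · rw [q.injective hxy]
  refine ⟨⟨⟨f, hf⟩, ?_⟩⟩
  rintro ((_ | i) | (_ | j)) ((_ | i') | (_ | j')) <;>
    simp [f, doubleStar, SimpleGraph.fromRel_adj, *]

theorem le_domaticNumber {V : Type} [Fintype V] [DecidableEq V] [Nonempty V] (G : SimpleGraph V)
    {c : ℕ} (φ : V → Fin c) (hφ : ∀ v j, φ v = j ∨ ∃ z, G.Adj v z ∧ φ z = j) :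
    c ≤ domaticNumber G := by
  classical
  have hsurj : ∀ j, ∃ z, φ z = j := by
    intro j
    rcases hφ (Classical.arbitrary V) j with h | ⟨z, _, h⟩
    · exact ⟨_, h⟩
    · exact ⟨z, h⟩
  apply le_csSup
  · refine ⟨Fintype.card V, ?_⟩
    rintro k ⟨P, rfl, _⟩
    exact P.card_parts_le_card.trans (le_of_eq Finset.card_univ)
  · let X : Fin c → Finset V := fun j => Finset.univ.filter fun v => φ v = j
    have hX : Function.Injective X := by
      intro i j hij
      obtain ⟨z, hz⟩ := hsurj i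
      have : z ∈ X j := hij ▸ (Finset.mem_filter.2 ⟨Finset.mem_univ _, hz⟩ : z ∈ X i)
      rw [← hz, (Finset.mem_filter.1 this).2]
    refine ⟨Finpartition.ofExistsUnique (Finset.univ.image X) (fun _ _ => Finset.subset_univ _)
      ?_ ?_, ?_, ?_⟩
    · intro v _
      refine ⟨X (φ v), ⟨Finset.mem_image_of_mem _ (Finset.mem_univ _),
        Finset.mem_filter.2 ⟨Finset.mem_univ _, rfl⟩⟩, ?_⟩
      rintro Y ⟨hY, hv⟩
      obtain ⟨j, _, rfl⟩ := Finset.mem_image.1 hY
      rw [(Finset.mem_filter.1 hv).2]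
    · intro h
      obtain ⟨j, _, hj⟩ := Finset.mem_image.1 h
      obtain ⟨z, hz⟩ := hsurj j
      have : z ∈ X j := Finset.mem_filter.2 ⟨Finset.mem_univ _, hz⟩
      rw [hj] at this
      exact Finset.notMem_empty z this
    · show (Finset.univ.image X).card = c
      rw [Finset.card_image_of_injective _ hX, Finset.card_univ, Fintype.card_fin]
    · intro Y hY v
      obtain ⟨j, _, rfl⟩ := Finset.mem_image.1 hY
      rcases hφ v j with h | ⟨z, hz, h⟩
      · exact Or.inl (Finset.mem_filter.2 ⟨Finset.mem_univ _, h⟩)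
      · exact Or.inr ⟨z, Finset.mem_filter.2 ⟨Finset.mem_univ _, h⟩, hz⟩

/-- For all `a, b ≥ 1` the class of finite graphs with no induced double star `S_{a,b}` is
DOM-bounded. -/
theorem result : ∀ a b : ℕ, 1 ≤ a → 1 ≤ b →
    ∃ f : ℕ → ℝ, Monotone f ∧ (∀ n, 0 < f n) ∧ ¬ BddAbove (Set.range f) ∧
      ∀ (V : Type) [Fintype V] [DecidableEq V] [Nonempty V] (G : SimpleGraph V)
        [DecidableRel G.Adj], ¬ (doubleStar a b).IsIndContained G →
        f G.minDegree ≤ (domaticNumber G : ℝ) := by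
  classical
  intro a b ha _
  have hk : 1 ≤ max a b := ha.trans (le_max_left a b)
  choose d hd using fun c => main (max a b) (c + 1) hk (Nat.le_add_left 1 c)
  let g : ℕ → ℕ := fun n => max 1 (((Finset.range (n + 1)).filter fun c => d c ≤ n).sup (· + 1))
  refine ⟨fun n => (g n : ℝ), ?_, ?_, ?_, ?_⟩
  · intro m n hmn
    have : g m ≤ g n := by
      apply max_le_max le_rfl
      apply Finset.sup_mono
      intro c hc
      rw [Finset.mem_filter, Finset.mem_range] at hc ⊢
      exact ⟨by omega, by omega⟩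
    show (g m : ℝ) ≤ g n
    exact_mod_cast this
  · intro n
    have : 0 < g n := lt_of_lt_of_le Nat.one_pos (le_max_left _ _)
    show (0 : ℝ) < g n
    exact_mod_cast this
  · rintro ⟨B, hB⟩
    obtain ⟨c, hc⟩ := exists_nat_gt B
    have h1 : (g (max c (d c)) : ℝ) ≤ B := hB ⟨max c (d c), rfl⟩
    have h2 : c + 1 ≤ g (max c (d c)) := by
      apply le_trans _ (le_max_right _ _)
      apply Finset.le_sup (f := (· + 1))
      rw [Finset.mem_filter, Finset.mem_range]
      exact ⟨Nat.lt_succ_of_le (le_max_left _ _), le_max_right _ _⟩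
    have h3 : ((c + 1 : ℕ) : ℝ) ≤ g (max c (d c)) := by exact_mod_cast h2
    push_cast at h3
    linarith
  · intro V _ _ _ G _ hG
    have hN : NoDS G (max a b) := noDS_of_free G (le_max_left a b) (le_max_right a b) hG
    have : g G.minDegree ≤ domaticNumber G := by
      apply max_le
      · exact le_domaticNumber G (fun _ => (0 : Fin 1)) fun v j => Or.inl (Subsingleton.elim _ _)
      · apply Finset.sup_le
        intro c hc
        obtain ⟨φ, hφ⟩ := hd c V G hN fun v =>
          (Finset.mem_filter.1 hc).2.trans (G.minDegree_le_degree v)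
        exact le_domaticNumber G φ fun v j => Or.inr (hφ v j)
    show (g G.minDegree : ℝ) ≤ domaticNumber G
    exact_mod_cast this

end Pool.Agent.Lib.MP_1aa2a2_co.OldDomBounded
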