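import Mathlib
import Pool.Agent.Shared.CountingLLL
import Pool.Agent.Lib.MP_1aa2a2_co.Main

/-!
Tools for the sharp order of the domatic number of graphs with no induced double star: a local
lemma with flags, medians, and nestedness of independent blocks seen by one vertex.
-/

set_option autoImplicit false
set_option linter.unusedSectionVars false

namespace Pool.Agent.Lib.MP_1aa2a2_co

open Finset

/-- Every edge `e i` gets a vertex whose value is outside `A i`. -/
theorem exists_hit {V α ι : Type*} [Fintype V] [DecidableEq V] [Fintype α] [DecidableEq α]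
    [Nonempty α] (s : Finset ι) (e : ι → Finset V) (A : ι → Finset α)
    (hne : ∀ i ∈ s, (e i).Nonempty) (γ : ℝ) (hγ0 : 0 < γ) (hγ1 : γ ≤ 1)
    (h : ∀ v, ∑ i ∈ s, (if v ∈ e i then
      (((A i).card : ℝ) / Fintype.card α / γ) ^ (e i).card else 0) ≤ 1 - γ) :
    ∃ φ : V → α, ∀ i ∈ s, ∃ v ∈ e i, φ v ∉ A i := by
  classical
  have hα : (0 : ℝ) < Fintype.card α := by exact_mod_cast Fintype.card_pos
  let B : ι → Finset (V → α) := fun i =>
    Fintype.piFinset fun v => if v ∈ e i then A i else Finset.univ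
  have memB : ∀ (i : ι) (φ : V → α), φ ∈ B i ↔ ∀ v ∈ e i, φ v ∈ A i := by
    intro i φ
    simp only [B, Fintype.mem_piFinset]
    constructor
    · intro hφ v hv
      have := hφ v
      rwa [if_pos hv] at this
    · intro hφ v
      by_cases hv : v ∈ e i
      · rw [if_pos hv]; exact hφ v hv
      · rw [if_neg hv]; exact Finset.mem_univ _
  obtain ⟨φ, hφ⟩ := Pool.Agent.Shared.CountingLLL.exists_avoid s e B hne
    (by
      intro i _ φ ψ hφψ hφ
      rw [memB] at hφ ⊢
      intro v hv
      rw [← hφψ v hv]; exact hφ v hv)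
    (fun i => (((A i).card : ℝ) / Fintype.card α) ^ (e i).card)
    (fun i _ => by positivity)
    (by
      intro i _
      apply le_of_eq
      simp only [B, Fintype.card_piFinset, Fintype.card_fun]
      push_cast
      have h1 : ∀ v, ((if v ∈ e i then A i else Finset.univ).card : ℝ)
          = (if v ∈ e i then ((A i).card : ℝ) / Fintype.card α else 1) * Fintype.card α := by
        intro v
        by_cases hv : v ∈ e i
        · rw [if_pos hv, if_pos hv]
          field_simp
        · rw [if_neg hv, if_neg hv]; simp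
      rw [Finset.prod_congr rfl fun v _ => h1 v, Finset.prod_mul_distrib, Finset.prod_const,
        Finset.card_univ, Finset.prod_ite_mem, Finset.univ_inter, Finset.prod_const])
    γ hγ0 hγ1
    (by
      intro v
      refine le_trans (le_of_eq ?_) (h v)
      refine Finset.sum_congr rfl fun i _ => ?_
      rw [div_pow (((A i).card : ℝ) / Fintype.card α)])
  refine ⟨φ, fun i hi => ?_⟩
  have := hφ i hi
  rw [memB] at this
  push Not at this
  exact this

/-- Colours with flags: the edges `e i` see every colour without a flag, the edges `g i` see a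
flag. -/
theorem exists_flag {V ι κ : Type*} [Fintype V] [DecidableEq V] (c : ℕ) (hc : 1 ≤ c)
    (s : Finset ι) (e : ι → Finset V) (hne : ∀ i ∈ s, (e i).Nonempty)
    (r : Finset κ) (g : κ → Finset V) (hng : ∀ i ∈ r, (g i).Nonempty)
    (h : ∀ v, c * ∑ i ∈ s, (if v ∈ e i then (1 - 1 / (4 * (c : ℝ))) ^ (e i).card else 0)
      + ∑ i ∈ r, (if v ∈ g i then (2 / 3 : ℝ) ^ (g i).card else 0) ≤ 1 / (4 * (c : ℝ))) :
    ∃ φ : V → Fin c × Bool, (∀ i ∈ s, ∀ j : Fin c, ∃ v ∈ e i, φ v = (j, false)) ∧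
      ∀ i ∈ r, ∃ v ∈ g i, (φ v).2 = true := by
  classical
  have : Nonempty (Fin c) := ⟨⟨0, hc⟩⟩
  have hcR : (1 : ℝ) ≤ c := by exact_mod_cast hc
  have hc0 : (0 : ℝ) < c := by linarith
  set γ : ℝ := 1 - 1 / (4 * (c : ℝ)) with hγ
  have hq : 1 / (4 * (c : ℝ)) ≤ 1 / 4 := by
    apply one_div_le_one_div_of_le <;> linarith
  have hpos' : 0 < 1 / (4 * (c : ℝ)) := by positivity
  have hγ0 : 0 < γ := by linarith
  have hγ1 : γ ≤ 1 := by linarith
  have hcard : (Fintype.card (Fin c × Bool) : ℝ) = 2 * c := by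
    simp [mul_comm]
  obtain ⟨φ, hφ⟩ := exists_hit (V := V) (α := Fin c × Bool)
    ((s ×ˢ (Finset.univ : Finset (Fin c))).disjSum r)
    (Sum.elim (fun p => e p.1) g)
    (Sum.elim (fun p => Finset.univ.erase (p.2, false))
      fun _ => (Finset.univ : Finset (Fin c)) ×ˢ ({false} : Finset Bool))
    (by
      rintro (p | i) hi
      · rw [Finset.inl_mem_disjSum] at hi
        exact hne _ (Finset.mem_product.1 hi).1
      · rw [Finset.inr_mem_disjSum] at hi
        exact hng _ hi)
    γ hγ0 hγ1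
    (by
      intro v
      rw [Finset.sum_disjSum, Finset.sum_product]
      simp only [Sum.elim_inl, Sum.elim_inr]
      have hr : 1 - γ = 1 / (4 * (c : ℝ)) := by rw [hγ]; ring
      rw [hr]
      refine le_trans (add_le_add ?_ ?_) (h v)
      · rw [Finset.mul_sum]
        refine Finset.sum_le_sum fun i _ => ?_
        have h1 : ∀ j : Fin c, (if v ∈ e i then
            ((((Finset.univ : Finset (Fin c × Bool)).erase (j, false)).card : ℝ)
              / Fintype.card (Fin c × Bool) / γ) ^ (e i).card else 0)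
            ≤ (if v ∈ e i then γ ^ (e i).card else 0) := by
          intro j
          by_cases hv : v ∈ e i
          · rw [if_pos hv, if_pos hv]
            apply pow_le_pow_left₀ (by positivity)
            rw [Finset.card_erase_of_mem (Finset.mem_univ _), Finset.card_univ,
              Nat.cast_sub Fintype.card_pos, hcard, div_le_iff₀ hγ0]
            have h2 : γ * γ = (2 * (c : ℝ) - (1 : ℕ)) / (2 * c) + (1 / (4 * (c : ℝ))) ^ 2 := by
              rw [hγ]; push_cast; field_simp; ring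
            rw [h2]
            have := sq_nonneg (1 / (4 * (c : ℝ)))
            linarith
          · rw [if_neg hv, if_neg hv]
        refine (Finset.sum_le_sum fun j _ => h1 j).trans (le_of_eq ?_)
        rw [Finset.sum_const, Finset.card_univ, Fintype.card_fin, nsmul_eq_mul]
      · refine Finset.sum_le_sum fun i _ => ?_
        by_cases hv : v ∈ g i
        · simp only [hv, ite_true]
          apply pow_le_pow_left₀ (by positivity)
          rw [Finset.card_product, Finset.card_univ, Fintype.card_fin, Finset.card_singleton,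
            mul_one, hcard, div_le_iff₀ hγ0]
          have h2 : (c : ℝ) / (2 * c) = 1 / 2 := by field_simp
          rw [h2]
          linarith
        · simp only [hv, ite_false, le_refl])
  refine ⟨φ, fun i hi j => ?_, fun i hi => ?_⟩
  · obtain ⟨v, hv, h1⟩ := hφ (Sum.inl (i, j))
      (Finset.inl_mem_disjSum.2 (Finset.mem_product.2 ⟨hi, Finset.mem_univ _⟩))
    refine ⟨v, hv, ?_⟩
    by_contra h2
    exact h1 (Finset.mem_erase.2 ⟨h2, Finset.mem_univ _⟩)
  · obtain ⟨v, hv, h1⟩ := hφ (Sum.inr i) (Finset.inr_mem_disjSum.2 hi)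
    refine ⟨v, hv, ?_⟩
    by_contra h2
    exact h1 (Finset.mem_product.2 ⟨Finset.mem_univ _, by simpa using h2⟩)

/-- A median of the values of `W` on `J`. -/
theorem exists_median {V : Type*} [DecidableEq V] (W : V → ℝ) (J : Finset V) (m : ℕ)
    (hm : 1 ≤ m) (hJ : 2 * m ≤ J.card) :
    ∃ r : ℝ, m ≤ (J.filter fun z => W z ≤ r).card ∧ m ≤ (J.filter fun z => r ≤ W z).card := by
  classical
  have hne : J.Nonempty := Finset.card_pos.1 (by omega)
  obtain ⟨a, ha, hamax⟩ := Finset.exists_max_image J W hne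
  obtain ⟨u, hu, humin⟩ := Finset.exists_min_image
    (J.filter fun u => m ≤ (J.filter fun z => W z ≤ W u).card) W
    ⟨a, Finset.mem_filter.2 ⟨ha, by rw [Finset.filter_true_of_mem hamax]; omega⟩⟩
  refine ⟨W u, (Finset.mem_filter.1 hu).2, ?_⟩
  have h1 : (J.filter fun z => ¬ W u ≤ W z).card < m := by
    by_contra hcon
    have hne' : (J.filter fun z => ¬ W u ≤ W z).Nonempty := Finset.card_pos.1 (by omega)
    obtain ⟨b, hb, hbmax⟩ := Finset.exists_max_image _ W hne'
    have h2 : (J.filter fun z => ¬ W u ≤ W z) ⊆ J.filter fun z => W z ≤ W b := fun z hz =>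
      Finset.mem_filter.2 ⟨(Finset.mem_filter.1 hz).1, hbmax z hz⟩
    have h3 := humin b (Finset.mem_filter.2 ⟨(Finset.mem_filter.1 hb).1,
      (not_lt.1 hcon).trans (Finset.card_le_card h2)⟩)
    exact (Finset.mem_filter.1 hb).2 h3
  have h2 := Finset.card_filter_add_card_filter_not (s := J) (fun z => W u ≤ W z)
  omega

section
variable {V : Type*} [Fintype V] [DecidableEq V] {G : SimpleGraph V} [DecidableRel G.Adj]

/-- `x` is adjacent to all but fewer than `k` elements of `J`. -/
def Well (G : SimpleGraph V) [DecidableRel G.Adj] (k : ℕ) (x : V) (J : Finset V) : Prop :=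
  (J.filter fun z => ¬ G.Adj x z).card < k

/-- If `u` and an independent set `I` with no edge to `u` lie in the neighbourhood of a vertex
that is not rich, almost all neighbours of `u` see all but fewer than `k` elements of `I`. -/
theorem wt_miss {k q : ℕ} (hk : 1 ≤ k) (hG : NoDS G k) {ρ η : ℝ} {d : ℕ} (hρ : 0 ≤ ρ)
    (hη : 0 ≤ η) (hT : Tail ρ η d) (hd : ∀ v, d ≤ G.degree v) {x₀ u : V} {I : Finset V}
    (hI : Indep G I) (hIq : I.card ≤ q) (hxu : G.Adj x₀ u) (huI : ∀ z ∈ I, ¬ G.Adj u z)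
    (hIx : ∀ z ∈ I, G.Adj x₀ z) (hx₀ : ¬ Rich G k x₀) (Y : Finset V)
    (hY : ∀ x ∈ Y, G.Adj u x ∧ ¬ Well G k x I) :
    wt G ρ Y ≤ (q ^ k * k + (2 * k + 2) : ℕ) * η := by
  classical
  let Z : Finset V → Finset V := fun S =>
    (G.neighborFinset u \ cN G x₀).filter fun x => ∀ z ∈ S, ¬ G.Adj x z
  have hZ : ∀ S ∈ I.powersetCard k, wt G ρ (Z S) ≤ k * η := by
    intro S hS
    rw [Finset.mem_powersetCard] at hS
    apply wt_le_of_sparse hρ hT hd
    intro D
    by_contra hcon
    obtain ⟨I', hI'Z, hI'c, hI'⟩ := exists_indep (G := G) D k (low G D (Z S))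
      (fun w hw => (mem_low.1 hw).2) (not_le.1 hcon).le
    have hmem : ∀ y ∈ I', G.Adj u y ∧ (¬ G.Adj x₀ y ∧ y ≠ x₀) ∧ ∀ z ∈ S, ¬ G.Adj y z := by
      intro y hy
      have h1 := Finset.mem_filter.1 (mem_low.1 (hI'Z hy)).1
      have h2 := Finset.mem_sdiff.1 h1.1
      rw [SimpleGraph.mem_neighborFinset, mem_cN] at h2
      exact ⟨h2.1, ⟨fun h => h2.2 (Or.inr h), fun h => h2.2 (Or.inl h)⟩, h1.2⟩
    refine hG x₀ u S I' hxu hS.2 hI'c ?_ hI' ?_ ?_ ?_
    · exact fun x hx y hy => hI x (hS.1 hx) y (hS.1 hy)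
    · intro x hx
      refine ⟨hIx x (hS.1 hx), huI x (hS.1 hx), ?_⟩
      intro hzu
      obtain ⟨y, hy⟩ : I'.Nonempty := Finset.card_pos.1 (by omega)
      exact (hmem y hy).2.2 x hx (hzu ▸ (hmem y hy).1.symm)
    · intro y hy
      exact ⟨(hmem y hy).1, (hmem y hy).2.1⟩
    · intro x hx y hy hxy
      exact (hmem y hy).2.2 x hx hxy.symm
  have hsub : Y ⊆ (I.powersetCard k).biUnion Z ∪ ({x₀} ∪ G.neighborFinset x₀) := by
    intro x hx
    by_cases hxc : x ∈ cN G x₀
    · apply Finset.mem_union_right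
      rcases mem_cN.1 hxc with rfl | h
      · exact Finset.mem_union_left _ (Finset.mem_singleton_self _)
      · exact Finset.mem_union_right _ ((SimpleGraph.mem_neighborFinset _ _ _).2 h)
    · apply Finset.mem_union_left
      obtain ⟨S, hS, hSc⟩ := Finset.exists_subset_card_eq (not_lt.1 (hY x hx).2)
      refine Finset.mem_biUnion.2 ⟨S, Finset.mem_powersetCard.2
        ⟨hS.trans (Finset.filter_subset _ _), hSc⟩, Finset.mem_filter.2 ⟨?_,
          fun z hz => (Finset.mem_filter.1 (hS hz)).2⟩⟩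
      exact Finset.mem_sdiff.2 ⟨(SimpleGraph.mem_neighborFinset _ _ _).2 (hY x hx).1, hxc⟩
  have h1 := (wt_mono (G := G) hρ hsub).trans (wt_union_le hρ _ _)
  have h2 := wt_biUnion_le hρ (I.powersetCard k) Z _ hZ
  have h3 := wt_union_le (G := G) hρ {x₀} (G.neighborFinset x₀)
  have h4 := wt_singleton_le hρ hT hd x₀
  have h5 := wt_not_rich hρ hT hd hx₀
  have h6 : ((I.powersetCard k).card : ℝ) ≤ (q : ℝ) ^ k := by
    rw [Finset.card_powersetCard]
    exact_mod_cast (Nat.choose_le_pow _ _).trans (Nat.pow_le_pow_left hIq k)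
  have h7 := mul_le_mul_of_nonneg_right h6 (mul_nonneg (Nat.cast_nonneg k) hη)
  push_cast at h2 h5 h7 ⊢
  linarith

/-- An independent set of size `q` inside the neighbourhood of a vertex that is not rich. -/
def Block (G : SimpleGraph V) [DecidableRel G.Adj] (k q : ℕ) (J : Finset V) : Prop :=
  J.card = q ∧ Indep G J ∧ ∃ x, ¬ Rich G k x ∧ ∀ z ∈ J, G.Adj x z

theorem wt_notWell {k q : ℕ} (hk : 1 ≤ k) (hG : NoDS G k) {ρ η : ℝ} {d : ℕ} (hρ : 0 ≤ ρ)
    (hη : 0 ≤ η) (hT : Tail ρ η d) (hd : ∀ v, d ≤ G.degree v) {J : Finset V} (hJ : Block G k q J)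
    {u : V} (hu : u ∈ J) (Y : Finset V) (hY : ∀ x ∈ Y, G.Adj u x ∧ ¬ Well G k x J) :
    wt G ρ Y ≤ (q ^ k * k + (2 * k + 2) : ℕ) * η := by
  obtain ⟨h1, h2, x₀, h3, h4⟩ := hJ
  exact wt_miss hk hG hρ hη hT hd h2 h1.le (h4 u hu) (fun z hz => h2 u hu z hz) h4 h3 Y hY

theorem card_seen {k : ℕ} {x : V} {J A : Finset V} (hx : Well G k x J) (hA : A ⊆ J)
    (hc : 2 * k ≤ A.card) : k < (A.filter fun z => G.Adj x z).card := by
  have h1 := Finset.card_filter_add_card_filter_not (s := A) (fun z => G.Adj x z)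
  have h2 : (A.filter fun z => ¬ G.Adj x z).card ≤ (J.filter fun z => ¬ G.Adj x z).card :=
    Finset.card_le_card (Finset.filter_subset_filter _ hA)
  unfold Well at hx
  omega

/-- Two blocks seen by one vertex that is not rich are nested in the order of their medians. -/
theorem wt_nest {k q : ℕ} (hk : 1 ≤ k) (hG : NoDS G k) {ρ η : ℝ} {d : ℕ} (hρ : 0 ≤ ρ)
    (hη : 0 ≤ η) (hT : Tail ρ η d) (hd : ∀ v, d ≤ G.degree v) {J J' : Finset V}
    (hJ : Block G k q J) (hJ' : Block G k q J') {x₀ : V} (hx₀ : ¬ Rich G k x₀)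
    (hw : Well G k x₀ J) (hw' : Well G k x₀ J') {r r' : ℝ} (hr : r ≤ r')
    (hL : 2 * k ≤ (J.filter fun z => wt G ρ (G.neighborFinset z) ≤ r).card)
    (hU : 2 * k ≤ (J'.filter fun z => r' ≤ wt G ρ (G.neighborFinset z)).card)
    {v : V} (hv : v ∈ J) (Y : Finset V) (hY : ∀ x ∈ Y, G.Adj v x ∧ ¬ Well G k x J') :
    wt G ρ Y ≤ ((q + 1) ^ 2 * (q ^ k * k + (2 * k + 2)) : ℕ) * η := by
  classical
  set K : ℕ := q ^ k * k + (2 * k + 2) with hK
  set L := (J.filter fun z => wt G ρ (G.neighborFinset z) ≤ r).filter fun z => G.Adj x₀ z with hLd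
  set I := (J'.filter fun z => r' ≤ wt G ρ (G.neighborFinset z)).filter fun z => G.Adj x₀ z
    with hId
  have hLc : k < L.card := card_seen hw (Finset.filter_subset _ _) hL
  have hIc : k < I.card := card_seen hw' (Finset.filter_subset _ _) hU
  have hLJ : L ⊆ J := (Finset.filter_subset _ _).trans (Finset.filter_subset _ _)
  have hIJ : I ⊆ J' := (Finset.filter_subset _ _).trans (Finset.filter_subset _ _)
  have hLq : L.card ≤ q := (Finset.card_le_card hLJ).trans hJ.1.le
  have hIq : I.card ≤ q := (Finset.card_le_card hIJ).trans hJ'.1.le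
  let N : V → Finset V → Finset V := fun u A => (G.neighborFinset u).filter fun x => ¬ Well G k x A
  have memN : ∀ u A x, x ∈ N u A ↔ G.Adj u x ∧ ¬ Well G k x A := by
    intro u A x
    simp [N]
  have hKη : (0 : ℝ) ≤ K * η := mul_nonneg (Nat.cast_nonneg _) hη
  have hN' : ∀ u ∈ J', wt G ρ (N u J') ≤ K * η := fun u hu =>
    wt_notWell hk hG hρ hη hT hd hJ' hu _ fun x hx => (memN _ _ _).1 hx
  have hYu : ∀ u ∈ L, wt G ρ (N u J') ≤ ((q : ℝ) + 2) * (K * η) := by
    intro u hu
    have hu1 := Finset.mem_filter.1 hu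
    have hu2 := Finset.mem_filter.1 hu1.1
    have hq0 : (0 : ℝ) ≤ q := Nat.cast_nonneg _
    by_cases hadj : ∃ u' ∈ I, G.Adj u u'
    · obtain ⟨u', hu', hadj⟩ := hadj
      have h1 := Finset.mem_filter.1 (Finset.mem_filter.1 hu').1
      have h2 := wt_sdiff_le hG hρ hT hd hadj (hu2.2.trans (hr.trans h1.2))
      have hsub : N u J' ⊆ (G.neighborFinset u \ G.neighborFinset u') ∪ N u' J' := by
        intro x hx
        rw [memN] at hx
        by_cases h : G.Adj u' x
        · exact Finset.mem_union_right _ ((memN _ _ _).2 ⟨h, hx.2⟩)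
        · exact Finset.mem_union_left _ (Finset.mem_sdiff.2
            ⟨(SimpleGraph.mem_neighborFinset _ _ _).2 hx.1,
              fun h' => h ((SimpleGraph.mem_neighborFinset _ _ _).1 h')⟩)
      have h3 := (wt_mono (G := G) hρ hsub).trans (wt_union_le hρ _ _)
      have h4 := hN' u' h1.1
      have h5 : ((2 * k + 1 : ℕ) : ℝ) ≤ K := by
        have : 2 * k + 1 ≤ K := by omega
        exact_mod_cast this
      have h6 := mul_le_mul_of_nonneg_right h5 hη
      have h7 := mul_nonneg hq0 hKη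
      linarith
    · push Not at hadj
      have h1 : wt G ρ (N u I) ≤ K * η :=
        wt_miss hk hG hρ hη hT hd (fun a ha b hb => hJ'.2.1 a (hIJ ha) b (hIJ hb)) hIq hu1.2 hadj
          (fun z hz => (Finset.mem_filter.1 hz).2) hx₀ _ fun x hx => (memN _ _ _).1 hx
      have hsub : N u J' ⊆ N u I ∪ I.biUnion fun u' => N u' J' := by
        intro x hx
        rw [memN] at hx
        by_cases h : ∃ u' ∈ I, G.Adj x u'
        · obtain ⟨u', hu', h⟩ := h
          exact Finset.mem_union_right _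
            (Finset.mem_biUnion.2 ⟨u', hu', (memN _ _ _).2 ⟨h.symm, hx.2⟩⟩)
        · push Not at h
          refine Finset.mem_union_left _ ((memN _ _ _).2 ⟨hx.1, ?_⟩)
          unfold Well
          rw [Finset.filter_true_of_mem h]
          omega
      have h3 := (wt_mono (G := G) hρ hsub).trans (wt_union_le hρ _ _)
      have h4 := wt_biUnion_le hρ I (fun u' => N u' J') _ fun u' hu' => hN' u' (hIJ hu')
      have h5 : (I.card : ℝ) ≤ q := by exact_mod_cast hIq
      have h6 := mul_le_mul_of_nonneg_right h5 hKη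
      linarith
  have hsub : Y ⊆ N v J ∪ L.biUnion fun u => N u J' := by
    intro x hx
    by_cases h : Well G k x J
    · have h1 : ∃ u ∈ L, G.Adj x u := by
        by_contra hcon
        push Not at hcon
        have h2 : L ⊆ J.filter fun z => ¬ G.Adj x z := fun z hz =>
          Finset.mem_filter.2 ⟨hLJ hz, hcon z hz⟩
        have h3 := Finset.card_le_card h2
        unfold Well at h
        omega
      obtain ⟨u, hu, h1⟩ := h1
      exact Finset.mem_union_right _
        (Finset.mem_biUnion.2 ⟨u, hu, (memN _ _ _).2 ⟨h1.symm, (hY x hx).2⟩⟩)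
    · exact Finset.mem_union_left _ ((memN _ _ _).2 ⟨(hY x hx).1, h⟩)
  have h1 := (wt_mono (G := G) hρ hsub).trans (wt_union_le hρ _ _)
  have h2 := wt_biUnion_le hρ L (fun u => N u J') _ hYu
  have h3 : wt G ρ (N v J) ≤ K * η :=
    wt_notWell hk hG hρ hη hT hd hJ hv _ fun x hx => (memN _ _ _).1 hx
  have h4 : (L.card : ℝ) ≤ q := by exact_mod_cast hLq
  have h5 := mul_le_mul_of_nonneg_right h4
    (mul_nonneg (by positivity : (0 : ℝ) ≤ (q : ℝ) + 2) hKη)
  have h6 : (((q + 1) ^ 2 * K : ℕ) : ℝ) * η = K * η + q * (((q : ℝ) + 2) * (K * η)) := by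
    push_cast; ring
  rw [h6]
  linarith

end

end Pool.Agent.Lib.MP_1aa2a2_co
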