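import Mathlib
import Pool.Agent.Lib.MP_1aa2a2_co.SharpA

/-!
The colouring theorem with abstract parameters: two kernel systems (vertices and blocks) and a
local lemma with flags.
-/

set_option autoImplicit false
set_option linter.unusedSectionVars false

namespace Pool.Agent.Lib.MP_1aa2a2_co

open Finset

/-- Two blocks are joined if a vertex that is not rich sees both. -/
def blockGraph {V : Type*} [Fintype V] [DecidableEq V] (G : SimpleGraph V) [DecidableRel G.Adj]
    (k : ℕ) : SimpleGraph (Finset V) :=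
  SimpleGraph.fromRel fun J J' => ∃ x, ¬ Rich G k x ∧ Well G k x J ∧ Well G k x J'

theorem blockGraph_adj {V : Type*} [Fintype V] [DecidableEq V] {G : SimpleGraph V}
    [DecidableRel G.Adj] {k : ℕ} {J J' : Finset V} :
    (blockGraph G k).Adj J J' ↔ J ≠ J' ∧ ∃ x, ¬ Rich G k x ∧ Well G k x J ∧ Well G k x J' := by
  rw [blockGraph, SimpleGraph.fromRel_adj]
  constructor
  · rintro ⟨h, ⟨x, h1, h2, h3⟩ | ⟨x, h1, h2, h3⟩⟩
    · exact ⟨h, x, h1, h2, h3⟩
    · exact ⟨h, x, h1, h3, h2⟩
  · rintro ⟨h, h'⟩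
    exact ⟨h, Or.inl h'⟩

theorem core (k c q d : ℕ) (hk : 1 ≤ k) (hc : 1 ≤ c) (hq : 4 * k ≤ q) (η : ℝ) (hη0 : 0 ≤ η)
    (hT : Tail (1 - 1 / (4 * (c : ℝ))) η d) (hdq : 2 * c * q + 1 ≤ d)
    (hsum : c * (η + 2 ^ q * ((c * ((q + 1) ^ 2 * (q ^ k * k + (2 * k + 2))) : ℕ) * η))
      + (q : ℝ) ^ k * (2 / 3 : ℝ) ^ (q + 1 - k) ≤ 1 / (4 * (c : ℝ)))
    (V : Type) [Fintype V] [DecidableEq V] (G : SimpleGraph V) [DecidableRel G.Adj]
    (hG : NoDS G k) (hd : ∀ v, d ≤ G.degree v) :
    ∃ φ : V → Fin c, ∀ v j, ∃ z, G.Adj v z ∧ φ z = j := by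
  classical
  have hcR : (1 : ℝ) ≤ c := by exact_mod_cast hc
  have hc0 : (0 : ℝ) < c := by linarith
  set ρ : ℝ := 1 - 1 / (4 * (c : ℝ)) with hρdef
  have hhalf : 1 / (4 * (c : ℝ)) ≤ 1 / 4 := by
    apply one_div_le_one_div_of_le <;> linarith
  have hpos' : 0 < 1 / (4 * (c : ℝ)) := by positivity
  have hρ0 : 0 < ρ := by linarith
  have hρ1 : ρ < 1 := by linarith
  have hM : (1 : ℝ) ≤ 2 ^ q * ρ ^ (2 * c * q) := by
    have h1 : (1 : ℝ) + (2 * c : ℕ) * (-(1 / (4 * (c : ℝ)))) ≤ (1 + -(1 / (4 * (c : ℝ)))) ^ (2 * c) :=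
      one_add_mul_le_pow (by linarith) _
    have h2 : (1 : ℝ) + (2 * c : ℕ) * (-(1 / (4 * (c : ℝ)))) = 1 / 2 := by
      push_cast; field_simp; ring
    have h3 : (1 : ℝ) + -(1 / (4 * (c : ℝ))) = ρ := by rw [hρdef]; ring
    rw [h2, h3] at h1
    rw [pow_mul, ← mul_pow]
    exact one_le_pow₀ (by linarith)
  set K0 : ℕ := q ^ k * k + (2 * k + 2) with hK0
  set K1 : ℕ := (q + 1) ^ 2 * K0 with hK1
  set K : ℕ := c * K1 with hKdef
  have hq1 : 1 ≤ q := by omega
  have hK01 : 4 * K0 ≤ K1 := by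
    apply Nat.mul_le_mul_right
    nlinarith
  have hK1K : K1 ≤ K := Nat.le_mul_of_pos_left _ hc
  let W : V → ℝ := fun v => wt G ρ (G.neighborFinset v)
  -- the packing
  obtain ⟨𝒥, h𝒥Q, h𝒥disj, h𝒥max⟩ := exists_packing (V := V)
    (fun J => Block G k q J ∧ ∀ z ∈ J, Heavy G k z)
    (fun J hJ => Finset.card_pos.1 (by rw [hJ.1.1]; exact hq1))
  -- the kernels of vertices
  obtain ⟨F, hFS, hFind, hFdisj, hFker⟩ := exists_kernels (G := G) W c
    (Finset.univ.filter fun v => Heavy G k v ∧ ∀ J ∈ 𝒥, v ∉ J)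
  have hFprop : ∀ i, ∀ v ∈ F i, Heavy G k v ∧ ∀ J ∈ 𝒥, v ∉ J :=
    fun i v hv => (Finset.mem_filter.1 (hFS i hv)).2
  set FF : Finset V := Finset.univ.biUnion F with hFF
  have memFF : ∀ v, v ∈ FF ↔ ∃ i, v ∈ F i := by
    intro v; simp [hFF]
  -- the kernels of blocks
  have hmed : ∀ J : Finset V, ∃ r : ℝ, J.card = q →
      2 * k ≤ (J.filter fun z => W z ≤ r).card ∧ 2 * k ≤ (J.filter fun z => r ≤ W z).card := by
    intro J
    by_cases h : J.card = q
    · obtain ⟨r, hr⟩ := exists_median W J (2 * k) (by omega) (by omega)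
      exact ⟨r, fun _ => hr⟩
    · exact ⟨0, fun h' => absurd h' h⟩
  choose med hmed using hmed
  obtain ⟨P, hPS, hPind, hPdisj, hPker⟩ := exists_kernels (G := blockGraph G k) med c 𝒥
  -- the edges of rich vertices
  have hE : ∀ y : V, ∃ E : Finset V, Rich G k y →
      E.Nonempty ∧ ∀ z ∈ E, G.Adj y z ∧ ¬ Heavy G k z ∧ G.degree z ≤ E.card := by
    intro y
    by_cases h : Rich G k y
    · obtain ⟨E, hE⟩ := rich_edge hG h
      exact ⟨E, fun _ => hE⟩
    · exact ⟨∅, fun h' => absurd h' h⟩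
  choose E hE using hE
  let E' : V → Finset V := fun x => (G.neighborFinset x).filter fun z =>
    z ∉ FF ∧ ∀ i, ∀ J ∈ P i, Well G k x J → z ∉ J
  have memE' : ∀ x z, z ∈ E' x ↔
      G.Adj x z ∧ z ∉ FF ∧ ∀ i, ∀ J ∈ P i, Well G k x J → z ∉ J := by
    intro x z
    simp only [E', Finset.mem_filter, SimpleGraph.mem_neighborFinset]
  -- vertices that are not rich lose few neighbours
  have hpoor : ∀ x, ¬ Rich G k x → G.degree x ≤ (E' x).card + 2 * c * q := by
    intro x hx
    have h1 : ∀ i, (G.neighborFinset x ∩ F i).card ≤ q := by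
      intro i
      by_contra hcon
      obtain ⟨J, hJsub, hJc⟩ := Finset.exists_subset_card_eq (not_le.1 hcon).le
      have hJF : ∀ z ∈ J, z ∈ F i := fun z hz => (Finset.mem_inter.1 (hJsub hz)).2
      obtain ⟨J', hJ', v, hv1, hv2⟩ := h𝒥max J ⟨⟨hJc,
        fun z hz w hw => hFind i z (hJF z hz) w (hJF w hw), x, hx, fun z hz =>
          (SimpleGraph.mem_neighborFinset _ _ _).1 (Finset.mem_inter.1 (hJsub hz)).1⟩,
        fun z hz => (hFprop i z (hJF z hz)).1⟩
      exact (hFprop i v (hJF v hv1)).2 J' hJ' hv2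
    have h1' : ∀ i, (((P i).filter fun J => Well G k x J).biUnion id).card ≤ q := by
      intro i
      have h2 : ((P i).filter fun J => Well G k x J).card ≤ 1 := by
        rw [Finset.card_le_one]
        intro J hJ J' hJ'
        rw [Finset.mem_filter] at hJ hJ'
        by_contra hne
        exact hPind i J hJ.1 J' hJ'.1 (blockGraph_adj.2 ⟨hne, x, hx, hJ.2, hJ'.2⟩)
      have h3 := Finset.card_biUnion_le_card_mul ((P i).filter fun J => Well G k x J) id q
        fun J hJ => (h𝒥Q J (hPS i (Finset.mem_filter.1 hJ).1)).1.1.le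
      exact h3.trans ((Nat.mul_le_mul_right q h2).trans (one_mul q).le)
    have h2 : G.neighborFinset x ⊆ (E' x ∪
        Finset.univ.biUnion fun i => G.neighborFinset x ∩ F i) ∪
        Finset.univ.biUnion fun i => ((P i).filter fun J => Well G k x J).biUnion id := by
      intro z hz
      by_cases hzF : z ∈ FF
      · obtain ⟨i, hi⟩ := (memFF z).1 hzF
        exact Finset.mem_union_left _ (Finset.mem_union_right _
          (Finset.mem_biUnion.2 ⟨i, Finset.mem_univ _, Finset.mem_inter.2 ⟨hz, hi⟩⟩))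
      · by_cases hzP : ∀ i, ∀ J ∈ P i, Well G k x J → z ∉ J
        · exact Finset.mem_union_left _ (Finset.mem_union_left _ ((memE' x z).2
            ⟨(SimpleGraph.mem_neighborFinset _ _ _).1 hz, hzF, hzP⟩))
        · push Not at hzP
          obtain ⟨i, J, hJ, hw, hzJ⟩ := hzP
          exact Finset.mem_union_right _ (Finset.mem_biUnion.2 ⟨i, Finset.mem_univ _,
            Finset.mem_biUnion.2 ⟨J, Finset.mem_filter.2 ⟨hJ, hw⟩, hzJ⟩⟩)
    have h3 := Finset.card_biUnion_le_card_mul (Finset.univ : Finset (Fin c))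
      (fun i => G.neighborFinset x ∩ F i) q fun i _ => h1 i
    have h3' := Finset.card_biUnion_le_card_mul (Finset.univ : Finset (Fin c))
      (fun i => ((P i).filter fun J => Well G k x J).biUnion id) q fun i _ => h1' i
    rw [Finset.card_univ, Fintype.card_fin] at h3 h3'
    have h4 := (Finset.card_le_card h2).trans ((Finset.card_union_le _ _).trans
      (Nat.add_le_add_right (Finset.card_union_le _ _) _))
    rw [SimpleGraph.card_neighborFinset_eq_degree] at h4
    have h5 : 2 * c * q = c * q + c * q := by ring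
    omega
  let Bad : V → Prop := fun x => ¬ Rich G k x ∧ (∃ i, ∀ z ∈ F i, ¬ G.Adj x z) ∧
    ∃ i, ∀ J ∈ P i, ¬ Well G k x J
  -- the weight of the bad vertices whose edge contains a given vertex
  have hbad : ∀ v, ∀ Y : Finset V, (∀ x ∈ Y, v ∈ E' x ∧ Bad x) → wt G ρ Y ≤ K * η := by
    intro v Y hY
    have hadj : ∀ x ∈ Y, G.Adj v x := fun x hx => ((memE' x v).1 (hY x hx).1).1.symm
    rcases Y.eq_empty_or_nonempty with rfl | ⟨x₁, hx₁⟩
    · simp only [wt, Finset.sum_empty]
      positivity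
    have hv : v ∉ FF := ((memE' x₁ v).1 (hY x₁ hx₁).1).2.1
    have hKa : ((4 * k + 1 : ℕ) : ℝ) ≤ K := by
      have : 4 * k + 1 ≤ K := by omega
      exact_mod_cast this
    have hKb : ((c * (2 * k + 1) : ℕ) : ℝ) ≤ K := by
      have : c * (2 * k + 1) ≤ K := Nat.mul_le_mul_left c (by omega)
      exact_mod_cast this
    have hKc : ((K0 : ℕ) : ℝ) ≤ K := by
      have : K0 ≤ K := by omega
      exact_mod_cast this
    by_cases hH : Heavy G k v
    · by_cases hU : ∀ J ∈ 𝒥, v ∉ J
      · have hker := hFker v (Finset.mem_filter.2 ⟨Finset.mem_univ _, hH, hU⟩)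
          (fun i hi => hv ((memFF v).2 ⟨i, hi⟩))
        choose u hu1 hu2 hu3 using hker
        have hsub : Y ⊆ Finset.univ.biUnion
            fun i => G.neighborFinset v \ G.neighborFinset (u i) := by
          intro x hx
          obtain ⟨i, hi⟩ := (hY x hx).2.2.1
          refine Finset.mem_biUnion.2 ⟨i, Finset.mem_univ _, Finset.mem_sdiff.2
            ⟨(SimpleGraph.mem_neighborFinset _ _ _).2 (hadj x hx), fun h => ?_⟩⟩
          exact hi (u i) (hu1 i) ((SimpleGraph.mem_neighborFinset _ _ _).1 h).symm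
        have h1 := (wt_mono (G := G) hρ0.le hsub).trans (wt_biUnion_le hρ0.le _ _ _
          fun i _ => wt_sdiff_le hG hρ0.le hT hd (hu2 i) (hu3 i))
        rw [Finset.card_univ, Fintype.card_fin, ← mul_assoc, ← Nat.cast_mul] at h1
        exact h1.trans (mul_le_mul_of_nonneg_right hKb hη0)
      · push Not at hU
        obtain ⟨J, hJ, hvJ⟩ := hU
        by_cases hP : ∃ i, J ∈ P i
        · obtain ⟨i, hi⟩ := hP
          have h1 := wt_notWell hk hG hρ0.le hη0 hT hd (h𝒥Q J hJ).1 hvJ Y fun x hx =>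
            ⟨hadj x hx, fun hw => ((memE' x v).1 (hY x hx).1).2.2 i J hi hw hvJ⟩
          exact h1.trans (mul_le_mul_of_nonneg_right hKc hη0)
        · push Not at hP
          choose J' hJ'1 hJ'2 hJ'3 using hPker J hJ hP
          have hsub : Y ⊆ Finset.univ.biUnion
              fun i => Y.filter fun x => ¬ Well G k x (J' i) := by
            intro x hx
            obtain ⟨i, hi⟩ := (hY x hx).2.2.2
            exact Finset.mem_biUnion.2 ⟨i, Finset.mem_univ _,
              Finset.mem_filter.2 ⟨hx, hi _ (hJ'1 i)⟩⟩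
          have h1 := (wt_mono (G := G) hρ0.le hsub).trans (wt_biUnion_le hρ0.le _ _
            ((K1 : ℕ) * η) fun i _ => by
              obtain ⟨_, x₀, hx₀, hw, hw'⟩ := blockGraph_adj.1 (hJ'2 i)
              have hB' := (h𝒥Q _ (hPS i (hJ'1 i))).1
              exact wt_nest hk hG hρ0.le hη0 hT hd (h𝒥Q J hJ).1 hB' hx₀ hw hw' (hJ'3 i)
                (hmed J (h𝒥Q J hJ).1.1).1 (hmed _ hB'.1).2 hvJ _ fun x hx =>
                  ⟨hadj x (Finset.mem_filter.1 hx).1, (Finset.mem_filter.1 hx).2⟩)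
          rw [Finset.card_univ, Fintype.card_fin, ← mul_assoc, ← Nat.cast_mul] at h1
          exact h1
    · have h1 := wt_not_heavy hρ0.le hT hd hH
      have hsub : Y ⊆ G.neighborFinset v := fun x hx =>
        (SimpleGraph.mem_neighborFinset _ _ _).2 (hadj x hx)
      exact ((wt_mono (G := G) hρ0.le hsub).trans h1).trans
        (mul_le_mul_of_nonneg_right hKa hη0)
  -- the hypergraph
  obtain ⟨φ, hφ, hφ'⟩ := exists_flag (V := V) c hc
    ((Finset.univ.filter (Rich G k)).disjSum (Finset.univ.filter Bad)) (Sum.elim E E')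
    (by
      rintro (y | x) hi
      · rw [Finset.inl_mem_disjSum] at hi
        exact (hE y (Finset.mem_filter.1 hi).2).1
      · rw [Finset.inr_mem_disjSum] at hi
        have h1 := hpoor x (Finset.mem_filter.1 hi).2.1
        have h2 := hd x
        exact Finset.card_pos.1 (by simp only [Sum.elim_inr]; omega))
    (𝒥.biUnion fun J => J.powersetCard (q + 1 - k)) id
    (by
      intro R hR
      obtain ⟨J, _, hR⟩ := Finset.mem_biUnion.1 hR
      have := (Finset.mem_powersetCard.1 hR).2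
      exact Finset.card_pos.1 (by simp only [id]; omega))
    (by
      intro v
      rw [Finset.sum_disjSum, ← hρdef]
      have S1 : ∑ y ∈ Finset.univ.filter (Rich G k),
          (if v ∈ E y then ρ ^ (E y).card else 0) ≤ η := by
        rw [← Finset.sum_filter]
        have h1 := Finset.sum_le_card_nsmul
          ((Finset.univ.filter (Rich G k)).filter fun y => v ∈ E y) (fun y => ρ ^ (E y).card)
          (ρ ^ G.degree v) (by
            intro y hy
            rw [Finset.mem_filter, Finset.mem_filter] at hy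
            exact pow_le_pow_of_le_one hρ0.le hρ1.le ((hE y hy.1.2).2 v hy.2).2.2)
        have h2 : ((Finset.univ.filter (Rich G k)).filter fun y => v ∈ E y).card
            ≤ G.degree v := by
          rw [← SimpleGraph.card_neighborFinset_eq_degree]
          apply Finset.card_le_card
          intro y hy
          rw [Finset.mem_filter, Finset.mem_filter] at hy
          exact (SimpleGraph.mem_neighborFinset _ _ _).2 ((hE y hy.1.2).2 v hy.2).1.symm
        have h3 := hT.single (hd v)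
        have h4 : (0 : ℝ) ≤ ρ ^ G.degree v := pow_nonneg hρ0.le _
        have h5 : ((((Finset.univ.filter (Rich G k)).filter fun y => v ∈ E y).card : ℕ) : ℝ)
            ≤ (G.degree v : ℝ) + 1 := by
          have : ((((Finset.univ.filter (Rich G k)).filter fun y => v ∈ E y).card : ℕ) : ℝ)
            ≤ (G.degree v : ℝ) := by exact_mod_cast h2
          linarith
        rw [nsmul_eq_mul] at h1
        exact h1.trans ((mul_le_mul_of_nonneg_right h5 h4).trans h3)
      have S2 : ∑ x ∈ Finset.univ.filter Bad,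
          (if v ∈ E' x then ρ ^ (E' x).card else 0) ≤ 2 ^ q * (K * η) := by
        rw [← Finset.sum_filter]
        have h1 := hbad v ((Finset.univ.filter Bad).filter fun x => v ∈ E' x) (by
          intro x hx
          rw [Finset.mem_filter, Finset.mem_filter] at hx
          exact ⟨hx.2, hx.1.2⟩)
        refine le_trans ?_ (mul_le_mul_of_nonneg_left h1 (by positivity))
        unfold wt
        rw [Finset.mul_sum]
        apply Finset.sum_le_sum
        intro x hx
        rw [Finset.mem_filter, Finset.mem_filter] at hx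
        have h2 := hpoor x hx.1.2.1
        have h3 : ρ ^ ((E' x).card + 2 * c * q) ≤ ρ ^ G.degree x :=
          pow_le_pow_of_le_one hρ0.le hρ1.le h2
        rw [pow_add] at h3
        have h4 : (0 : ℝ) ≤ ρ ^ (E' x).card := pow_nonneg hρ0.le _
        have h5 := mul_le_mul_of_nonneg_left hM h4
        have h6 := mul_le_mul_of_nonneg_left h3 (by positivity : (0 : ℝ) ≤ 2 ^ q)
        linarith
      have S3 : ∑ R ∈ 𝒥.biUnion fun J => J.powersetCard (q + 1 - k),
          (if v ∈ R then (2 / 3 : ℝ) ^ R.card else 0)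
          ≤ (q : ℝ) ^ k * (2 / 3 : ℝ) ^ (q + 1 - k) := by
        rw [← Finset.sum_filter]
        have h1 := Finset.sum_le_card_nsmul
          ((𝒥.biUnion fun J => J.powersetCard (q + 1 - k)).filter fun R => v ∈ R)
          (fun R => (2 / 3 : ℝ) ^ R.card) ((2 / 3 : ℝ) ^ (q + 1 - k)) (by
            intro R hR
            obtain ⟨J, _, hR⟩ := Finset.mem_biUnion.1 (Finset.mem_filter.1 hR).1
            rw [(Finset.mem_powersetCard.1 hR).2])
        have h2 : ((𝒥.biUnion fun J => J.powersetCard (q + 1 - k)).filter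
            fun R => v ∈ R).card ≤ q ^ k := by
          by_cases hv : ∃ J ∈ 𝒥, v ∈ J
          · obtain ⟨J, hJ, hvJ⟩ := hv
            have h3 : ((𝒥.biUnion fun J => J.powersetCard (q + 1 - k)).filter fun R => v ∈ R)
                ⊆ J.powersetCard (q + 1 - k) := by
              intro R hR
              obtain ⟨J', hJ', hR'⟩ := Finset.mem_biUnion.1 (Finset.mem_filter.1 hR).1
              rwa [h𝒥disj J hJ J' hJ' v hvJ
                ((Finset.mem_powersetCard.1 hR').1 (Finset.mem_filter.1 hR).2)]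
            refine (Finset.card_le_card h3).trans ?_
            rw [Finset.card_powersetCard, (h𝒥Q J hJ).1.1,
              ← Nat.choose_symm (by omega : q + 1 - k ≤ q)]
            exact (Nat.choose_le_pow _ _).trans (Nat.pow_le_pow_right hq1 (by omega))
          · rw [Finset.filter_false_of_mem, Finset.card_empty]
            · exact Nat.zero_le _
            · intro R hR hvR
              obtain ⟨J', hJ', hR'⟩ := Finset.mem_biUnion.1 hR
              exact hv ⟨J', hJ', (Finset.mem_powersetCard.1 hR').1 hvR⟩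
        have h3 : ((((𝒥.biUnion fun J => J.powersetCard (q + 1 - k)).filter
            fun R => v ∈ R).card : ℕ) : ℝ) ≤ (q : ℝ) ^ k := by exact_mod_cast h2
        rw [nsmul_eq_mul] at h1
        exact h1.trans (mul_le_mul_of_nonneg_right h3 (by positivity))
      exact le_trans (add_le_add (mul_le_mul_of_nonneg_left (add_le_add S1 S2) hc0.le) S3) hsum)
  -- the final colouring
  let ψ : V → Fin c := fun v => if h : ∃ i, v ∈ F i then Classical.choose h else
    if h' : (φ v).2 = true ∧ ∃ i, ∃ J ∈ P i, v ∈ J then Classical.choose h'.2 else (φ v).1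
  have hψF : ∀ i, ∀ v ∈ F i, ψ v = i := by
    intro i v hv
    have h : ∃ i, v ∈ F i := ⟨i, hv⟩
    simp only [ψ, dif_pos h]
    exact hFdisj _ _ v (Classical.choose_spec h) hv
  have hψφ : ∀ v j, v ∉ FF → φ v = (j, false) → ψ v = j := by
    intro v j hv hj
    have h : ¬ ∃ i, v ∈ F i := fun h => hv ((memFF v).2 h)
    have h' : ¬ ((φ v).2 = true ∧ ∃ i, ∃ J ∈ P i, v ∈ J) := by
      rw [hj]; simp
    simp only [ψ, dif_neg h, dif_neg h']
    rw [hj]
  have hψP : ∀ i, ∀ J ∈ P i, ∀ v ∈ J, (φ v).2 = true → ψ v = i := by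
    intro i J hJ v hv hf
    have h : ¬ ∃ i, v ∈ F i := fun ⟨i', hi'⟩ => (hFprop i' v hi').2 J (hPS i hJ) hv
    have h' : (φ v).2 = true ∧ ∃ i, ∃ J ∈ P i, v ∈ J := ⟨hf, i, J, hJ, hv⟩
    simp only [ψ, dif_neg h, dif_pos h']
    obtain ⟨J', hJ', hv'⟩ := Classical.choose_spec h'.2
    have hJJ : J' = J := h𝒥disj J' (hPS _ hJ') J (hPS i hJ) v hv' hv
    exact hPdisj _ _ J (hJJ ▸ hJ') hJ
  refine ⟨ψ, fun y j => ?_⟩
  by_cases hy : Rich G k y
  · obtain ⟨z, hz, hzj⟩ := hφ (Sum.inl y)
      (Finset.inl_mem_disjSum.2 (Finset.mem_filter.2 ⟨Finset.mem_univ _, hy⟩)) j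
    have hz' := (hE y hy).2 z hz
    refine ⟨z, hz'.1, hψφ z j ?_ hzj⟩
    intro hzF
    obtain ⟨i, hi⟩ := (memFF z).1 hzF
    exact hz'.2.1 (hFprop i z hi).1
  · by_cases hB : Bad y
    · obtain ⟨z, hz, hzj⟩ := hφ (Sum.inr y)
        (Finset.inr_mem_disjSum.2 (Finset.mem_filter.2 ⟨Finset.mem_univ _, hB⟩)) j
      have hz' := (memE' y z).1 hz
      exact ⟨z, hz'.1, hψφ z j hz'.2.1 hzj⟩
    · by_cases h1 : ∃ i, ∀ z ∈ F i, ¬ G.Adj y z
      · have h2 : ¬ ∃ i, ∀ J ∈ P i, ¬ Well G k y J := fun h2 => hB ⟨hy, h1, h2⟩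
        push Not at h2
        obtain ⟨J, hJ, hw⟩ := h2 j
        have h3 := Finset.card_filter_add_card_filter_not (s := J) (fun z => G.Adj y z)
        have h4 := (h𝒥Q J (hPS j hJ)).1.1
        have h5 : q + 1 - k ≤ (J.filter fun z => G.Adj y z).card := by
          unfold Well at hw
          omega
        obtain ⟨R, hR, hRc⟩ := Finset.exists_subset_card_eq h5
        have hRJ : R ⊆ J := hR.trans (Finset.filter_subset _ _)
        obtain ⟨z, hz, hf⟩ := hφ' R (Finset.mem_biUnion.2
          ⟨J, hPS j hJ, Finset.mem_powersetCard.2 ⟨hRJ, hRc⟩⟩)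
        exact ⟨z, (Finset.mem_filter.1 (hR hz)).2, hψP j J hJ z (hRJ hz) hf⟩
      · push Not at h1
        obtain ⟨z, hz, hadj⟩ := h1 j
        exact ⟨z, hadj, hψF j z hz⟩

end Pool.Agent.Lib.MP_1aa2a2_co
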