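import Mathlib
import Pool.Agent.Lib.MP_1aa2a2_co.SharpB

/-!
Explicit parameters: minimum degree `84 c L` gives `c` colours when `c ≤ 2 ^ L` and `8 k² ≤ L`.
-/

set_option autoImplicit false

namespace Pool.Agent.Lib.MP_1aa2a2_co

open Finset

theorem tail_explicit (m d : ℕ) (hm : 1 ≤ m) :
    Tail (1 - 1 / (m : ℝ)) (((d : ℝ) + 1 + m) * m * (1 - 1 / (m : ℝ)) ^ d) d := by
  have hmR : (1 : ℝ) ≤ m := by exact_mod_cast hm
  have hm0 : (0 : ℝ) < m := by linarith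
  set ρ : ℝ := 1 - 1 / (m : ℝ) with hρ
  have hρ0 : 0 ≤ ρ := by
    have : 1 / (m : ℝ) ≤ 1 := by rw [div_le_one hm0]; exact hmR
    linarith
  have hmρ : (m : ℝ) * ρ = m - 1 := by rw [hρ]; field_simp
  have key : ∀ n : ℕ, ∑ D ∈ Finset.Ico d (d + n), ((D : ℝ) + 1) * ρ ^ D
      + (((d + n : ℕ) : ℝ) + 1 + m) * m * ρ ^ (d + n) ≤ ((d : ℝ) + 1 + m) * m * ρ ^ d := by
    intro n
    induction n with
    | zero => simp
    | succ n ih =>
      rw [← add_assoc, Finset.sum_Ico_succ_top (Nat.le_add_right d n)]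
      have h1 : (0 : ℝ) ≤ ρ ^ (d + n) := pow_nonneg hρ0 _
      have h2 : (((d + n + 1 : ℕ) : ℝ) + 1 + m) * m * ρ ^ (d + n + 1)
          = (((d + n : ℕ) : ℝ) + 2 + m) * (m - 1) * ρ ^ (d + n) := by
        rw [pow_succ, ← hmρ]; push_cast; ring
      rw [h2]
      nlinarith
  intro T hT
  have hsub : T ⊆ Finset.Ico d (d + (T.sup id + 1)) := by
    intro D hD
    have h2 : D ≤ T.sup id := Finset.le_sup (f := id) hD
    exact Finset.mem_Ico.2 ⟨hT D hD, by omega⟩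
  have h1 := Finset.sum_le_sum_of_subset_of_nonneg (f := fun D : ℕ => ((D : ℝ) + 1) * ρ ^ D) hsub
    fun D _ _ => by positivity
  have h2 := key (T.sup id + 1)
  have h3 : (0 : ℝ) ≤ (((d + (T.sup id + 1) : ℕ) : ℝ) + 1 + m) * m * ρ ^ (d + (T.sup id + 1)) := by
    positivity
  linarith

theorem Tail.mono {ρ η η' : ℝ} {d : ℕ} (h : Tail ρ η d) (hη : η ≤ η') : Tail ρ η' d :=
  fun T hT => (h T hT).trans hη

theorem le_two_pow {L : ℕ} (hL : 8 ≤ L) : 32 * L ≤ 2 ^ L := by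
  induction L, hL using Nat.le_induction with
  | base => norm_num
  | succ n hn ih => rw [pow_succ]; omega

theorem sq_le_two_pow {m : ℕ} (hm : 8 ≤ m) : m * (m + 1) ≤ 2 ^ m := by
  induction m, hm using Nat.le_induction with
  | base => norm_num
  | succ n hn ih => rw [pow_succ]; nlinarith

theorem pow_le_two_pow {k L : ℕ} (hk : 1 ≤ k) (hL : 8 * k ^ 2 ≤ L) : (8 * L) ^ k ≤ 2 ^ L := by
  have h1 : 8 * k ≤ L / k := (Nat.le_div_iff_mul_le hk).2 (by nlinarith)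
  have h2 : L < k * (L / k + 1) := Nat.lt_mul_div_succ L hk
  have h3 : 8 * L ≤ 2 ^ (L / k) := by
    have h4 := sq_le_two_pow (m := L / k) (by omega)
    have h5 : 8 * k * (L / k + 1) ≤ L / k * (L / k + 1) := Nat.mul_le_mul_right _ h1
    nlinarith
  calc (8 * L) ^ k ≤ (2 ^ (L / k)) ^ k := Nat.pow_le_pow_left h3 k
    _ = 2 ^ (L / k * k) := by rw [← pow_mul]
    _ ≤ 2 ^ L := Nat.pow_le_pow_right (by norm_num) (Nat.div_mul_le_self L k)

theorem numeric {k c L : ℕ} (hk : 1 ≤ k) (hL : 8 * k ^ 2 ≤ L) (hc : c ≤ 2 ^ L) :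
    128 * c ^ 4 * (21 * L + 2) *
      (1 + 2 ^ (8 * L) * (c * ((8 * L + 1) ^ 2 * ((8 * L) ^ k * k + (2 * k + 2)))))
      ≤ 2 ^ (21 * L) := by
  have hkL : 8 * k ≤ L := by nlinarith
  have hL8 : 8 ≤ L := by omega
  have h32 := le_two_pow hL8
  have hq := pow_le_two_pow hk hL
  have e8 : 2 ^ (8 * L) = (2 ^ L) ^ 8 := by rw [← pow_mul, mul_comm]
  have e21 : 2 ^ (21 * L) = (2 ^ L) ^ 21 := by rw [← pow_mul, mul_comm]
  rw [e8, e21]
  generalize 2 ^ L = x at *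
  have hx : 256 ≤ x := by omega
  have h0 : (8 * L) ^ k * k + (2 * k + 2) ≤ x ^ 3 := by
    have h1 : (8 * L) ^ k * k ≤ x * x := Nat.mul_le_mul hq (by omega)
    have h2 : x * x * 2 ≤ x * x * x := Nat.mul_le_mul_left _ (by omega)
    have h3 : x ≤ x * x := Nat.le_mul_of_pos_left _ (by omega)
    have h4 : x ^ 3 = x * x * x := by ring
    omega
  have h1 : (8 * L + 1) ^ 2 ≤ x ^ 2 := Nat.pow_le_pow_left (by omega) 2
  have h2 : x ^ 8 * (c * ((8 * L + 1) ^ 2 * ((8 * L) ^ k * k + (2 * k + 2))))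
      ≤ x ^ 8 * (x * (x ^ 2 * x ^ 3)) :=
    Nat.mul_le_mul_left _ (Nat.mul_le_mul hc (Nat.mul_le_mul h1 h0))
  have h3 : 1 + x ^ 8 * (x * (x ^ 2 * x ^ 3)) ≤ x ^ 15 := by
    have h4 : 1 ≤ x ^ 14 := Nat.one_le_pow _ _ (by omega)
    have h5 : x ^ 14 * 2 ≤ x ^ 14 * x := Nat.mul_le_mul_left _ (by omega)
    have h6 : x ^ 8 * (x * (x ^ 2 * x ^ 3)) = x ^ 14 := by ring
    have h7 : x ^ 15 = x ^ 14 * x := by ring
    omega
  calc _ ≤ x * x ^ 4 * x * x ^ 15 :=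
        Nat.mul_le_mul (Nat.mul_le_mul (Nat.mul_le_mul (by omega) (Nat.pow_le_pow_left hc 4))
          (by omega)) ((Nat.add_le_add_left h2 1).trans h3)
    _ = x ^ 21 := by ring

/-- The colouring theorem with explicit parameters. -/
theorem sharp (k c L : ℕ) (hk : 1 ≤ k) (hc : 1 ≤ c) (hL : 8 * k ^ 2 ≤ L) (hcL : c ≤ 2 ^ L)
    (V : Type) [Fintype V] [DecidableEq V] (G : SimpleGraph V) [DecidableRel G.Adj]
    (hG : NoDS G k) (hd : ∀ v, 84 * c * L ≤ G.degree v) :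
    ∃ φ : V → Fin c, ∀ v j, ∃ z, G.Adj v z ∧ φ z = j := by
  have hkL : 8 * k ≤ L := by nlinarith
  have hL8 : 8 ≤ L := by omega
  have hcR : (1 : ℝ) ≤ c := by exact_mod_cast hc
  have hc0 : (0 : ℝ) < c := by linarith
  have hT0 := tail_explicit (4 * c) (84 * c * L) (by omega)
  have hρ : (1 - 1 / ((4 * c : ℕ) : ℝ)) ^ (84 * c * L) ≤ 1 / 2 ^ (21 * L) := by
    have h1 : (1 - 1 / ((4 * c : ℕ) : ℝ)) ^ (4 * c) ≤ Real.exp (-1) :=
      Real.one_sub_div_pow_le_exp_neg (by push_cast; linarith)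
    have h2 : Real.exp (-1) ≤ 1 / 2 := by
      rw [Real.exp_neg, ← one_div]
      apply one_div_le_one_div_of_le (by norm_num)
      have := Real.add_one_le_exp 1
      linarith
    have h3 : (0 : ℝ) ≤ 1 - 1 / ((4 * c : ℕ) : ℝ) := by
      have : 1 / ((4 * c : ℕ) : ℝ) ≤ 1 := by
        rw [div_le_one (by push_cast; linarith)]; push_cast; linarith
      linarith
    have h4 : 84 * c * L = 4 * c * (21 * L) := by ring
    rw [h4, pow_mul, ← one_div_pow]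
    exact pow_le_pow_left₀ (pow_nonneg h3 _) (h1.trans h2) _
  have hT : Tail (1 - 1 / (4 * (c : ℝ)))
      (16 * (c : ℝ) ^ 2 * (21 * L + 2) / 2 ^ (21 * L)) (84 * c * L) := by
    have h0 : (1 - 1 / (4 * (c : ℝ))) = 1 - 1 / ((4 * c : ℕ) : ℝ) := by push_cast; ring
    rw [h0]
    refine hT0.mono ?_
    have h1 : (((84 * c * L : ℕ) : ℝ) + 1 + (4 * c : ℕ)) * (4 * c : ℕ)
        ≤ 16 * (c : ℝ) ^ 2 * (21 * L + 2) := by
      push_cast
      nlinarith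
    have h3 : (0 : ℝ) ≤ 1 - 1 / ((4 * c : ℕ) : ℝ) := by
      have : 1 / ((4 * c : ℕ) : ℝ) ≤ 1 := by
        rw [div_le_one (by push_cast; linarith)]; push_cast; linarith
      linarith
    exact (mul_le_mul h1 hρ (pow_nonneg h3 _) (by positivity)).trans (le_of_eq (mul_one_div _ _))
  refine core k c (8 * L) (84 * c * L) hk hc (by omega) _ (by positivity) hT (by nlinarith) ?_
    V G hG hd
  have hn := numeric hk hL hcL
  set K : ℕ := c * ((8 * L + 1) ^ 2 * ((8 * L) ^ k * k + (2 * k + 2))) with hK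
  have hnR : 128 * (c : ℝ) ^ 4 * (21 * L + 2) * (1 + 2 ^ (8 * L) * K) ≤ 2 ^ (21 * L) := by
    exact_mod_cast hn
  have hA : c * (16 * (c : ℝ) ^ 2 * (21 * L + 2) / 2 ^ (21 * L)
      + 2 ^ (8 * L) * (K * (16 * (c : ℝ) ^ 2 * (21 * L + 2) / 2 ^ (21 * L)))) ≤ 1 / (8 * c) := by
    have h1 : c * (16 * (c : ℝ) ^ 2 * (21 * L + 2) / 2 ^ (21 * L)
        + 2 ^ (8 * L) * (K * (16 * (c : ℝ) ^ 2 * (21 * L + 2) / 2 ^ (21 * L))))
        = (128 * (c : ℝ) ^ 4 * (21 * L + 2) * (1 + 2 ^ (8 * L) * K)) / 2 ^ (21 * L)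
          * (1 / (8 * c)) := by
      field_simp; ring
    rw [h1]
    exact mul_le_of_le_one_left (by positivity) ((div_le_one (by positivity)).2 hnR)
  have hB : ((8 * L : ℕ) : ℝ) ^ k * (2 / 3 : ℝ) ^ (8 * L + 1 - k) ≤ 1 / (8 * c) := by
    have h1 : ((8 * L : ℕ) : ℝ) ^ k ≤ 2 ^ L := by exact_mod_cast pow_le_two_pow hk hL
    have h2 : (2 / 3 : ℝ) ^ (8 * L + 1 - k) ≤ (2 / 3 : ℝ) ^ (6 * L) :=
      pow_le_pow_of_le_one (by norm_num) (by norm_num) (by omega)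
    have h3 : (2 / 3 : ℝ) ^ (6 * L) ≤ (1 / 8) ^ L := by
      rw [pow_mul]
      exact pow_le_pow_left₀ (by positivity) (by norm_num) _
    have h4 : (2 : ℝ) ^ L * (1 / 8) ^ L = 1 / (2 ^ L * 2 ^ L) := by
      rw [← mul_pow, ← mul_pow, ← one_div_pow]; norm_num
    have h5 : 8 * c ≤ 2 ^ L * 2 ^ L :=
      Nat.mul_le_mul (by have := le_two_pow hL8; omega) hcL
    have h6 : 8 * (c : ℝ) ≤ 2 ^ L * 2 ^ L := by exact_mod_cast h5
    calc _ ≤ (2 : ℝ) ^ L * (1 / 8) ^ L :=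
          mul_le_mul h1 (h2.trans h3) (by positivity) (by positivity)
      _ ≤ 1 / (8 * c) := by
          rw [h4]; exact one_div_le_one_div_of_le (by positivity) h6
  have hC : 1 / (4 * (c : ℝ)) = 1 / (8 * c) + 1 / (8 * c) := by field_simp; ring
  rw [hC]
  exact add_le_add hA hB

end Pool.Agent.Lib.MP_1aa2a2_co
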